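import Pool.Agent.G4.St
import Pool.Agent.MldGeo.FreeAge

/-!
# AGC: the ages and the arithmetic core
-/

namespace G4

open Matrix Pool.Agent.Mld MldGap MldGeo

noncomputable section

namespace AGC

theorem exp_fr {z : ℂ} (hz : ‖z‖ = 1) :
    Complex.exp (((2 * Real.pi * fr z : ℝ) : ℂ) * Complex.I) = z := by
  have h1 : Complex.exp ((Complex.arg z : ℂ) * Complex.I) = z := by
    have := Complex.norm_mul_exp_arg_mul_I z
    rw [hz] at this
    simpa using this
  have hpi : (2 * Real.pi) ≠ 0 := Real.two_pi_pos.ne'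
  have hN : fr z = Complex.arg z / (2 * Real.pi) + (-⌊Complex.arg z / (2 * Real.pi)⌋ : ℤ) := by
    unfold fr
    have h2 := Int.self_sub_floor (Complex.arg z / (2 * Real.pi))
    push_cast
    linarith
  rw [hN]
  obtain ⟨N, hN'⟩ : ∃ N : ℤ, N = -⌊Complex.arg z / (2 * Real.pi)⌋ := ⟨_, rfl⟩
  rw [← hN']
  have h3 : (((2 * Real.pi * (Complex.arg z / (2 * Real.pi) + N) : ℝ) : ℂ) * Complex.I) =
      (Complex.arg z : ℂ) * Complex.I + N * (2 * Real.pi * Complex.I) := by
    have h4 : 2 * Real.pi * (Complex.arg z / (2 * Real.pi) + N) =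
        Complex.arg z + N * (2 * Real.pi) := by
      field_simp
    rw [h4]
    push_cast
    ring
  rw [h3, Complex.exp_add, h1, Complex.exp_int_mul_two_pi_mul_I, mul_one]

theorem fr_pow {z : ℂ} (hz : ‖z‖ = 1) (k : ℕ) : fr (z ^ k) = Int.fract ((k : ℝ) * fr z) := by
  conv_lhs => rw [← exp_fr hz, ← Complex.exp_nat_mul]
  rw [← Mk.fr_exp]
  congr 2
  push_cast
  ring

theorem fr_one : fr 1 = 0 := by
  unfold fr
  simp

end AGC

open AGC in
theorem t_AGC : Stmt_AGC := by
  classical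
  intro n G _ b hcore g hgG hg1 hmin hlt
  obtain ⟨m, hm, hgm⟩ := exists_pow hgG
  obtain ⟨L, hL⟩ := Quot.exists_rep (eig g)
  have hLn : L.length = n := by
    have := Pool.Agent.Mld.card_eig g
    rw [← hL] at this
    exact this
  subst hLn
  obtain ⟨f, hf⟩ : ∃ f : Fin L.length → ℂ, f = fun i => L.get i := ⟨_, rfl⟩
  have hfe : eig g = (Finset.univ : Finset (Fin L.length)).val.map f := by
    rw [← hL, Fin.univ_val_map, hf]
    simp only [List.ofFn_get]
    rfl
  have hnorm : ∀ i, ‖f i‖ = 1 := fun i => by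
    refine norm_eig hm hgm ?_
    rw [hfe]
    exact Multiset.mem_map_of_mem _ (Finset.mem_univ i)
  have hage : ∀ k : ℕ, age (g ^ k) = ∑ i, Int.fract ((k : ℝ) * fr (f i)) := by
    intro k
    unfold age
    rw [eig_pow, hfe, Multiset.map_map, Multiset.map_map]
    exact Finset.sum_congr rfl fun i _ => fr_pow (hnorm i) k
  have hage1 : age g = ∑ i, fr (f i) := by
    unfold age
    rw [hfe, Multiset.map_map]
    rfl
  -- the numbers are multiples of `1 / m`
  have hint : ∀ i, ∃ N : ℤ, (m : ℝ) * fr (f i) = N := by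
    intro i
    have h1 := fr_pow (hnorm i) m
    have h2 : f i ^ m = 1 := by
      have h3 : f i ^ m ∈ eig (g ^ m) := by
        rw [eig_pow, hfe]
        exact Multiset.mem_map_of_mem _ (Multiset.mem_map_of_mem _ (Finset.mem_univ i))
      rw [hgm, eig_one'] at h3
      exact Multiset.eq_of_mem_replicate h3
    rw [h2, fr_one] at h1
    obtain ⟨N, hN⟩ := Int.fract_eq_zero_iff.1 h1.symm
    exact ⟨N, hN.symm⟩
  rw [hage1] at hlt ⊢
  refine hcore _ ⟨fun i => Int.fract_nonneg _, hlt, fun k hk => ?_⟩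
  obtain ⟨k', hk'⟩ : ∃ k' : ℕ, (k' : ℤ) = k % m :=
    ⟨(k % m).toNat, Int.toNat_of_nonneg (Int.emod_nonneg _ (by exact_mod_cast hm.ne'))⟩
  have hfr : ∀ i, Int.fract ((k : ℝ) * fr (f i)) = Int.fract ((k' : ℝ) * fr (f i)) := by
    intro i
    obtain ⟨N, hN⟩ := hint i
    have h1 : (k : ℝ) = (k' : ℝ) + (m : ℝ) * ((k / m : ℤ) : ℝ) := by
      have h2 := Int.emod_add_mul_ediv k m
      rw [← hk'] at h2
      exact_mod_cast h2.symm
    have h3 : (k : ℝ) * fr (f i) = (k' : ℝ) * fr (f i) + ((k / m * N : ℤ) : ℝ) := by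
      rw [h1]
      push_cast
      rw [← hN]
      ring
    rw [h3, Int.fract_add_intCast]
  have hne : g ^ k' ≠ 1 := by
    intro h
    obtain ⟨i, hi⟩ := hk
    apply hi
    rw [hfr]
    have h1 := hage k'
    have h2 : age (1 : GL (Fin L.length) ℂ) = 0 := by
      unfold age
      rw [eig_one', Multiset.map_replicate, fr_one, Multiset.sum_replicate, smul_zero]
    rw [h, h2] at h1
    exact (Finset.sum_eq_zero_iff_of_nonneg fun i _ => Int.fract_nonneg _).1 h1.symm i
      (Finset.mem_univ i)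
  have h1 := hmin _ (G.pow_mem hgG k') hne
  rw [hage, hage1] at h1
  refine h1.trans (le_of_eq ?_)
  exact Finset.sum_congr rfl fun i _ => (hfr i).symm

end

end G4
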