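import Pool.Agent.G4.St

/-!
# DFM: the extremal example with diagonal matrices
-/

namespace G4

open Finset Matrix Pool.Agent.Mld Pool.Agent.Lib_helper15.MLD MldGap

/-- DFM -/
theorem t_DFM : Stmt_DFM := by
  classical
  intro N
  set r := rr N with hr
  have hmm := mm_pos N
  have hr3 : 3 ≤ r := by
    rw [hr, rr]
    nlinarith
  have : NeZero r := ⟨by omega⟩
  let f : Fin (N + 2) → ZMod r := fun i => (wt N i : ZMod r)
  set g := Mk.dg f with hg
  have hr0 : (0 : ℝ) < r := by exact_mod_cast (show 0 < r by omega)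
  -- nonvanishing
  have hne : ∀ (k : ℕ) (i : Fin (N + 2)), ¬ r ∣ k → ¬ r ∣ k * wt N i := by
    intro k i hk h
    exact hk ((wt_coprime N i).symm.dvd_of_dvd_mul_right h)
  have hval : ∀ (k : ℕ) (i : Fin (N + 2)), ((k : ZMod r) * f i).val = k * wt N i % r := by
    intro k i
    have : (k : ZMod r) * f i = ((k * wt N i : ℕ) : ZMod r) := by simp [f]
    rw [this, ZMod.val_natCast]
  have hfr : ∀ (k : ℕ) (i : Fin (N + 2)),
      fr (ZMod.stdAddChar ((k : ZMod r) * f i) : ℂ) = ((k * wt N i % r : ℕ) : ℝ) / r := by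
    intro k i
    rw [Mk.fr_std, hval]
  have hgk : ∀ k : ℕ, g ^ k = Mk.dg fun i => (k : ZMod r) * f i := fun k => by
    rw [hg, Mk.dg_pow]
  have hage : ∀ k : ℕ, age (g ^ k) = ((∑ i, k * wt N i % r : ℕ) : ℝ) / r := by
    intro k
    unfold age
    rw [hgk, Mk.eig_dg, Multiset.map_map]
    show ∑ i : Fin (N + 2), fr (ZMod.stdAddChar ((k : ZMod r) * f i) : ℂ) = _
    rw [sum_congr rfl fun i _ => hfr k i, ← sum_div]
    push_cast
    rfl
  have hgr : g ^ r = 1 := by
    rw [hgk, Mk.dg_eq_one_iff]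
    intro i
    simp
  have hfo : IsOfFinOrder g := isOfFinOrder_iff_pow_eq_one.2 ⟨r, by omega, hgr⟩
  have hmod : ∀ k : ℕ, g ^ k = g ^ (k % r) := by
    intro k
    conv_lhs => rw [← Nat.div_add_mod k r]
    rw [pow_add, pow_mul, hgr, one_pow, one_mul]
  have h1r : ¬ r ∣ 1 := fun h => by
    have := Nat.le_of_dvd one_pos h
    omega
  have hage1 : age g = ((r : ℝ) - 1) / r := by
    have h := hage 1
    rw [pow_one] at h
    rw [h]
    congr 1
    have h2 : ∑ i, 1 * wt N i % r = r - 1 := by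
      have h3 : ∑ i : Fin (N + 2), wt N i + 1 = r := sum_wt N
      have h4 : ∀ i : Fin (N + 2), 1 * wt N i % r = wt N i := by
        intro i
        rw [one_mul]
        apply Nat.mod_eq_of_lt
        have : wt N i ≤ ∑ j, wt N j := single_le_sum (fun _ _ => Nat.zero_le _) (mem_univ i)
        omega
      rw [sum_congr rfl fun i _ => h4 i]
      exact Nat.eq_sub_of_add_eq h3
    rw [h2, Nat.cast_sub (by omega)]
    simp
  have hg1 : g ≠ 1 := by
    intro h
    have h1 := hval 1 (0 : Fin (N + 2))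
    rw [hg, Mk.dg_eq_one_iff] at h
    rw [h 0, mul_zero, ZMod.val_zero] at h1
    exact hne 1 0 h1r (Nat.dvd_of_mod_eq_zero h1.symm)
  refine ⟨Subgroup.zpowers g, hfo.finite_zpowers, ?_, ?_, g, Subgroup.mem_zpowers g, hg1, ?_, ?_⟩
  · intro h hh hh1 v hv
    obtain ⟨k, rfl⟩ := (hfo.mem_powers_iff_mem_zpowers).2 hh
    have hk : ¬ r ∣ k := by
      rintro ⟨t, rfl⟩
      apply hh1
      show g ^ (r * t) = 1
      rw [pow_mul, hgr, one_pow]
    have hv' : ((Mk.dg fun i => (k : ZMod r) * f i : GL (Fin (N + 2)) ℂ) :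
        Matrix (Fin (N + 2)) (Fin (N + 2)) ℂ).mulVec v = v := by
      rw [← hgk]
      exact hv
    rw [Mk.mulVec_dg] at hv'
    ext i
    have h1 := congrFun hv' i
    have h2 : (ZMod.stdAddChar ((k : ZMod r) * f i) : ℂ) ≠ 1 := by
      intro h3
      rw [← AddChar.map_zero_eq_one (ZMod.stdAddChar (N := r))] at h3
      have h4 := ZMod.injective_stdAddChar h3
      have h5 := hval k i
      rw [h4, ZMod.val_zero] at h5
      exact hne k i hk (Nat.dvd_of_mod_eq_zero h5.symm)
    have h3 : ((ZMod.stdAddChar ((k : ZMod r) * f i) : ℂ) - 1) * v i = 0 := by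
      rw [sub_mul, h1, one_mul, sub_self]
    rcases mul_eq_zero.1 h3 with h4 | h4
    · exact absurd (sub_eq_zero.1 h4) h2
    · simpa using h4
  · intro h hh i j hij
    obtain ⟨k, rfl⟩ := (hfo.mem_powers_iff_mem_zpowers).2 hh
    show ((g ^ k : GL (Fin (N + 2)) ℂ) : Matrix (Fin (N + 2)) (Fin (N + 2)) ℂ) i j = 0
    rw [hgk]
    exact Matrix.diagonal_apply_ne _ hij
  · intro h hh hh1
    obtain ⟨k, rfl⟩ := (hfo.mem_powers_iff_mem_zpowers).2 hh
    have hk : ¬ r ∣ k := by
      rintro ⟨t, rfl⟩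
      apply hh1
      show g ^ (r * t) = 1
      rw [pow_mul, hgr, one_pow]
    show age g ≤ age (g ^ k)
    rw [hage1, hmod k]
    have hlt : k % r < r := Nat.mod_lt _ (by omega)
    have hk0 : k % r ≠ 0 := fun h => hk (Nat.dvd_of_mod_eq_zero h)
    rcases Nat.lt_or_ge (k % r) 2 with h2 | h2
    · have h3 : k % r = 1 := by omega
      rw [h3, pow_one, hage1]
    · rw [hage]
      have h4 := key N (k % r) h2 hlt
      have h5 : r ≤ ∑ i, (k % r) * wt N i % r := by
        have : rr N = r := rfl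
        rw [this] at h4
        omega
      have h6 : (r : ℝ) ≤ ((∑ i, (k % r) * wt N i % r : ℕ) : ℝ) := by exact_mod_cast h5
      exact div_le_div_of_nonneg_right (by linarith) hr0.le
  · have h1 := rr_eq N
    rw [syl_eq_sylvester] at h1
    have h2 : (4 : ℝ) * r = (sylvester (N + 1) : ℝ) ^ 2 + 3 := by
      rw [hr]
      exact_mod_cast h1
    rw [hage1, ← h2]
    field_simp

end G4
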