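import Pool.Agent.G4.St
import Pool.Agent.MldGeo.Closed5
import Pool.Agent.MldGeo.LOW

/-!
# LWT: the lower bound for the log discrepancies of quotient singularities, total version
-/

set_option autoImplicit false

namespace G4

open MldGeo MvPolynomial

noncomputable section

namespace LWTm

theorem fr_exp_le {t : ℝ} (ht : 0 ≤ t) :
    Pool.Agent.Mld.fr (Complex.exp (((2 * Real.pi * t : ℝ) : ℂ) * Complex.I)) ≤ t := by
  rw [Pool.Agent.Mld.Mk.fr_exp]
  have h1 := Int.self_sub_floor t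
  have h0 : 0 ≤ ⌊t⌋ := Int.floor_nonneg.2 ht
  have h2 : (0 : ℝ) ≤ ⌊t⌋ := by exact_mod_cast h0
  linarith

/-- an automorphism which fixes the polynomials is the identity -/
theorem fix_all {n : ℕ} {K : Type} [Field K] [Algebra K (Rat n)] (σ : Rat n ≃ₐ[K] Rat n)
    (h : ∀ p : MvPolynomial (Fin n) ℂ, σ (pol p) = pol p) (a : Rat n) : σ a = a := by
  obtain ⟨p, q, -, rfl⟩ := IsFractionRing.div_surjective (A := MvPolynomial (Fin n) ℂ) a
  rw [map_div₀]
  exact congrArg₂ (fun x y : Rat n => x / y) (h p) (h q)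

/-- `e = 1` if `exp (2 π i / e) = 1` -/
theorem e_one {e : ℕ} (he : 0 < e)
    (h : Complex.exp (2 * Real.pi * Complex.I * ((1 : ℤ) : ℂ) / e) = 1) : e = 1 := by
  rw [Complex.exp_eq_one_iff] at h
  obtain ⟨m, hm⟩ := h
  have he0 : (e : ℂ) ≠ 0 := by exact_mod_cast he.ne'
  have hpi : (2 * (Real.pi : ℂ) * Complex.I) ≠ 0 := Complex.two_pi_I_ne_zero
  have h1 : (1 : ℂ) = m * e := by
    have h2 : 2 * (Real.pi : ℂ) * Complex.I * 1 = 2 * (Real.pi : ℂ) * Complex.I * (m * e) := by
      rw [div_eq_iff he0] at hm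
      rw [Int.cast_one] at hm
      rw [hm]
      ring
    exact mul_left_cancel₀ hpi h2
  have h2 : (1 : ℤ) = m * e := by exact_mod_cast h1
  have h3 : (e : ℤ) ∣ 1 := ⟨m, by rw [h2]; ring⟩
  have h4 : (e : ℤ) ≤ 1 := Int.le_of_dvd one_pos h3
  omega

end LWTm

theorem t_LWT : Stmt_LWT := by
  intro hPST hTRT n X G _ φ _ S hn T hT v hv
  have := S.tower
  have := S.fin
  have := S.gal
  obtain ⟨v', e, hext⟩ := t_EXT (L := Rat n) v hn
  have hcen : CenT v' := (hPST S v' v e hext).1 hv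
  obtain ⟨σ, hσ, hin⟩ := t_INE v' v e hext
  obtain ⟨g, hg, hgp⟩ := S.act σ
  have htrf := hTRT S hn T hT v' v e hext hcen
  have htr := LOW.trdeg_rat n
  have he : 0 < e := hext.1
  have heR : (0 : ℝ) < e := by exact_mod_cast he
  by_cases hg1 : g = 1
  · left
    have hσ1 : ∀ a, σ a = a := by
      refine LWTm.fix_all σ fun p => ?_
      rw [hgp, hg1, GAL.linSubst_one]
    obtain ⟨t, ht, ht1⟩ := v'.unif
    have h9 := hin t ht
    rw [hσ1, ht1] at h9
    have he1 : e = 1 := by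
      refine LWTm.e_one he ?_
      by_contra hne
      have h10 : t - algebraMap ℂ (Rat n)
          (Complex.exp (2 * Real.pi * Complex.I * ((1 : ℤ) : ℂ) / e)) * t =
          algebraMap ℂ (Rat n)
            (1 - Complex.exp (2 * Real.pi * Complex.I * ((1 : ℤ) : ℂ) / e)) * t := by
        rw [map_sub, map_one]
        ring
      rw [h10] at h9
      have h11 : 1 - Complex.exp (2 * Real.pi * Complex.I * ((1 : ℤ) : ℂ) / e) ≠ 0 :=
        sub_ne_zero.mpr (Ne.symm hne)
      rcases h9 with h9 | h9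
      · rw [mul_eq_zero, map_eq_zero] at h9
        rcases h9 with h9 | h9
        · exact h11 h9
        · exact ht h9
      · rw [DivVal.ord_const_mul v' h11, ht1] at h9
        omega
    rw [he1, Nat.cast_one, mul_one] at htrf
    rw [htrf]
    have h12 : 1 ≤ v'.logOrd (stdForm n) :=
      (c_REG htr v' (fun i => pol (MvPolynomial.X i)) hn (fun i => Or.inr (hcen.1 _)) (t_TDR n).2).1
    exact_mod_cast h12
  right
  have hfo : IsOfFinOrder g := by
    have h := isOfFinOrder_of_finite (⟨g, hg⟩ : G)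
    exact (Submonoid.isOfFinOrder_coe (H := G.toSubmonoid) (x := ⟨g, hg⟩)).2 h
  obtain ⟨P, l, hP, hlo, hroots⟩ := t_DIA g hfo
  obtain ⟨-, hai, hcc, c, hc, hforms⟩ := c_CHG P
  obtain ⟨y, hy⟩ : ∃ y : Fin n → Rat n, y = fun i => pol (linSubst P (MvPolynomial.X i)) :=
    ⟨_, rfl⟩
  have hyi : ∀ i, y i = pol (linSubst P (MvPolynomial.X i)) := fun i => by rw [hy]
  rw [← hy] at hai hforms
  have hy0 : ∀ i, y i ≠ 0 := fun i => hai.ne_zero i
  have hpos : ∀ i, 0 ≤ v'.ord (y i) := by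
    intro i
    rw [hyi]
    exact hcen.1 _
  have hl : ∀ i, l i = Complex.exp (2 * Real.pi * Complex.I * v'.ord (y i) / e) := by
    intro i
    have h9 := hin (y i) (hy0 i)
    have h10 : σ (y i) = algebraMap ℂ (Rat n) (l i) * y i := by
      rw [hyi, hgp, hP]
      unfold pol
      rw [map_mul]
      congr 1
    rw [h10, ← sub_mul, ← map_sub] at h9
    by_contra hne
    have h11 : l i - Complex.exp (2 * Real.pi * Complex.I * v'.ord (y i) / e) ≠ 0 :=
      sub_ne_zero.mpr hne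
    rcases h9 with h9 | h9
    · rw [mul_eq_zero, map_eq_zero] at h9
      rcases h9 with h9 | h9
      · exact h11 h9
      · exact hy0 i h9
    · rw [DivVal.ord_const_mul v' h11] at h9
      exact absurd h9 (by simp)
  have hth : ∀ i, Pool.Agent.Mld.fr (l i) ≤ (v'.ord (y i) : ℝ) / e := by
    intro i
    have ht : (0 : ℝ) ≤ (v'.ord (y i) : ℝ) / e := by
      refine div_nonneg ?_ heR.le
      exact_mod_cast hpos i
    have h9 := LWTm.fr_exp_le ht
    have h10 : (((2 * Real.pi * ((v'.ord (y i) : ℝ) / e) : ℝ) : ℂ) * Complex.I) =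
        2 * Real.pi * Complex.I * v'.ord (y i) / e := by
      push_cast
      ring
    rw [h10] at h9
    rw [hl i]
    exact h9
  have hage : Pool.Agent.Mld.age g = ∑ i, Pool.Agent.Mld.fr (l i) := by
    unfold Pool.Agent.Mld.age Pool.Agent.Mld.eig
    rw [hroots, Multiset.map_map]
    rfl
  have hstd0 : stdForm n ≠ 0 := by
    intro h
    rw [h, smul_zero] at hforms
    exact LOW.dforms_ne htr y hai hforms
  have hcK : algebraMap ℂ (Rat n) c ≠ 0 := by
    rw [Ne, map_eq_zero]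
    exact hc
  have hprod : (∏ i, y i) ≠ 0 := Finset.prod_ne_zero_iff.mpr fun i _ => hy0 i
  have hdf : dforms y = (∏ i, y i) • dlogs y := LOW.dforms_eq y hy0
  have hdl : dlogs y ≠ 0 := by
    intro h
    rw [h, smul_zero] at hdf
    exact LOW.dforms_ne htr y hai hdf
  have hk : ∑ i, v'.ord (y i) ≤ v'.logOrd (stdForm n) := by
    have e1 := c_FSM htr v' _ _ hn hcK hstd0
    have e2 := c_FSM htr v' _ _ hn hprod hdl
    have e3 := c_FDL htr v' y hn hy0 hdl
    rw [v'.ord_const, zero_add] at e1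
    have hforms' : dforms y = algebraMap ℂ (Rat n) c • stdForm n := hforms
    rw [← hforms', hdf, e2, DivVal.ord_prod v' _ _ fun i _ => hy0 i] at e1
    have e4 : ∀ a b d : ℤ, a + b = d → 0 ≤ b → a ≤ d := fun a b d h h' => by omega
    exact e4 _ _ _ e1 e3
  refine ⟨g, hg, hg1, ?_⟩
  have hfin : (∑ i, (v'.ord (y i) : ℝ)) ≤ T.logDisc v * e := by
    rw [htrf]
    exact_mod_cast hk
  calc Pool.Agent.Mld.age g = ∑ i, Pool.Agent.Mld.fr (l i) := hage
    _ ≤ ∑ i, (v'.ord (y i) : ℝ) / e := Finset.sum_le_sum fun i _ => hth i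
    _ = (∑ i, (v'.ord (y i) : ℝ)) / e := (Finset.sum_div _ _ _).symm
    _ ≤ T.logDisc v := by
      rw [div_le_iff₀ heR]
      exact hfin

end

end G4
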