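import Pool.Agent.G4.St
import Pool.Agent.MldGeo.Closed5

/-!
# MNT: monomial valuations with nonnegative weights
-/

namespace G4

open MldGeo MvPolynomial

noncomputable section

open MON in
theorem t_MNT : Stmt_MNT := by
  classical
  have h2 : Stmt_FRM := c_FRM
  have h3 : Stmt_FSM := c_FSM
  have h4 : Stmt_CHG := c_CHG
  have h5 : Stmt_TDR := t_TDR
  intro n P a hn hc
  obtain ⟨c, hc⟩ := hc
  have htr := (h5 n).1
  have hai : AlgebraicIndependent ℂ fun i => chi P (Pi.single i 1) := by
    have : (fun i => chi P (Pi.single i 1)) = y P := funext fun i => chi_single P i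
    rw [this]
    exact y_ind P
  obtain ⟨v, v1, v2, v3, -⟩ := t_GAUT t_TBAS h2 (chi P) (chi_zero P) (chi_add P) hai (frac P) htr
    (fun i => (a i : ℤ)) ⟨c, hc⟩
  -- the value of a polynomial
  have key : ∀ p : MvPolynomial (Fin n) ℂ, p ≠ 0 → ∃ m ∈ p.support,
      v.ord (pol (linSubst P p)) = ∑ i, (a i : ℤ) * (m i : ℤ) := by
    intro p hp
    obtain ⟨m, hm, hmin⟩ := p.support.exists_min_image (fun m => ∑ i, (a i : ℤ) * (m i : ℤ))
      (support_nonempty.2 hp)
    refine ⟨m, hm, le_antisymm ?_ ?_⟩
    · rw [pol_sum']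
      refine (v2 _ _ (emb m) (Finset.mem_map_of_mem _ hm) ?_).trans (le_of_eq ?_)
      · rw [emb_toNat]
        exact mem_support_iff.1 hm
      · exact Finset.sum_congr rfl fun i _ => mul_comm _ _
    · have hne : pol (linSubst P p) ≠ 0 := by
        apply pol_ne
        intro h
        apply hp
        have h' := congrArg (linSubst P⁻¹) h
        rwa [CHG.linSubst_comp, mul_inv_cancel, CHG.linSubst_one, map_zero] at h'
      refine DivVal.Ge.le ?_ hne
      rw [pol_sum]
      refine DivVal.Ge.sum _ _ fun d hd => ?_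
      refine DivVal.Ge.const_mul (DivVal.Ge.of_le ?_) _
      rw [v1]
      refine (hmin d hd).trans (le_of_eq ?_)
      exact Finset.sum_congr rfl fun i _ => mul_comm _ _
  have hnn : ∀ p, 0 ≤ v.ord (pol p) := by
    intro p
    by_cases hp : p = 0
    · rw [hp]
      unfold pol
      rw [map_zero, v.ord_zero]
    · have h : p = linSubst P (linSubst P⁻¹ p) := by
        rw [CHG.linSubst_comp, inv_mul_cancel, CHG.linSubst_one]
      have hp' : linSubst P⁻¹ p ≠ 0 := by
        intro h'
        rw [h', map_zero] at h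
        exact hp h
      obtain ⟨m, -, hm⟩ := key _ hp'
      rw [← h] at hm
      rw [hm]
      positivity
  refine ⟨v, ⟨hnn, fun p h0 => le_antisymm ?_ (hnn p)⟩, ?_, key⟩
  · have h : p = linSubst P (linSubst P⁻¹ p) := by
      rw [CHG.linSubst_comp, inv_mul_cancel, CHG.linSubst_one]
    have h6 := (h4 P⁻¹).2.2.1 p
    have hm : (0 : Fin n →₀ ℕ) ∈ (linSubst P⁻¹ p).support := by
      rw [mem_support_iff, ← constantCoeff_eq, h6]
      exact h0
    rw [h, pol_sum']
    refine (v2 _ _ (emb 0) (Finset.mem_map_of_mem _ hm) ?_).trans (le_of_eq ?_)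
    · rw [emb_toNat]
      exact mem_support_iff.1 hm
    · refine Finset.sum_eq_zero fun i _ => ?_
      show ((0 : Fin n →₀ ℕ) i : ℤ) * _ = 0
      simp
  · obtain ⟨c0, hc0, hd⟩ := (h4 P).2.2.2
    have hy : (fun i => chi P (Pi.single i 1)) = y P := funext fun i => chi_single P i
    rw [hy] at v3
    have e1 : dforms (y P) = (∏ i, y P i) • dlogs (y P) := by
      unfold dforms dlogs
      rw [← AlternatingMap.map_smul_univ]
      congr 1
      funext i
      unfold dlog
      rw [smul_smul, mul_inv_cancel₀ (y_ne P i), one_smul]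
    have e2 : dforms (y P) = algebraMap ℂ (Rat n) c0 • stdForm n := hd
    have hc0' : algebraMap ℂ (Rat n) c0 ≠ 0 := (map_ne_zero _).2 hc0
    have hprod : ∏ i, y P i ≠ 0 := Finset.prod_ne_zero_iff.2 fun i _ => y_ne P i
    have e3 : stdForm n = ((algebraMap ℂ (Rat n) c0)⁻¹ * ∏ i, y P i) • dlogs (y P) := by
      rw [mul_smul, ← e1, e2, smul_smul, inv_mul_cancel₀ hc0', one_smul]
    have hne : dlogs (y P) ≠ 0 := by
      obtain ⟨hli, hsp⟩ := t_TBAS htr _ (y_ind P)
      let b : Module.Basis (Fin n) (Rat n) (Ω[Rat n⁄ℂ]) :=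
        (Module.Basis.mk hli hsp.ge).unitsSMul
          (fun i => Units.mk0 (y P i)⁻¹ (inv_ne_zero (y_ne P i)))
      have hb : ∀ i, b i = dlog (y P i) := fun i => by
        simp only [b]
        rw [Module.Basis.unitsSMul_apply, Module.Basis.mk_apply]
        rfl
      intro h0
      have h9 : (fun i => dlog (y P i)) = b := (funext hb).symm
      unfold dlogs at h0
      rw [h9] at h0
      have h10 := exteriorPower.alternatingMapLinearEquiv_apply_ιMulti b.det b
      rw [h0, map_zero, Module.Basis.det_self] at h10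
      exact zero_ne_one h10
    rw [e3, h3 htr v _ _ hn (mul_ne_zero (inv_ne_zero hc0') hprod) hne, v3, add_zero,
      v.ord_mul _ _ (inv_ne_zero hc0') hprod, DivVal.ord_inv, v.ord_const, neg_zero, zero_add,
      DivVal.ord_prod v _ _ fun i _ => y_ne P i]
    refine Finset.sum_congr rfl fun i _ => ?_
    rw [← chi_single P i, v1]
    rw [Finset.sum_eq_single i]
    · simp
    · intro j _ hj
      rw [Pi.single_eq_of_ne hj, zero_mul]
    · intro h
      exact absurd (Finset.mem_univ i) h

end

end G4
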