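import Pool.Agent.G4.St
import Pool.Agent.MldGeo.POS

/-!
# PST: centres containing the origin
-/

set_option autoImplicit false

namespace G4

open MldGeo MvPolynomial

namespace PST

variable {n : ℕ}

/-- The norm of a polynomial is invariant. -/
theorem norm_mem (G : Subgroup (GL (Fin n) ℂ)) [Fintype G] (p : MvPolynomial (Fin n) ℂ) :
    ∏ g : G, linSubst (g : GL (Fin n) ℂ) p ∈ invariants G := by
  intro h hh
  rw [map_prod]
  refine Fintype.prod_equiv (Equiv.mulRight (⟨h, hh⟩ : G)) _ _ fun g => ?_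
  exact CHG.linSubst_comp h g p

theorem const_norm (G : Subgroup (GL (Fin n) ℂ)) [Fintype G] (p : MvPolynomial (Fin n) ℂ) :
    constantCoeff (∏ g : G, linSubst (g : GL (Fin n) ℂ) p) =
      constantCoeff p ^ Fintype.card G := by
  rw [map_prod]
  simp only [CHG.const, Finset.prod_const, Finset.card_univ]

end PST

/-- PST -/
theorem t_PST : Stmt_PST := by
  classical
  intro n X G _ φ _ hS v' v e hext
  have := Fintype.ofFinite G
  obtain ⟨he, hord⟩ := hext
  have he' : (0 : ℤ) < e := by exact_mod_cast he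
  have hkey : ∀ a : X.R, v'.ord (pol (φ a : MvPolynomial (Fin n) ℂ)) = e * v.ord a := by
    intro a
    rw [← hS.map, hord]
  constructor
  · rintro ⟨hA, hB⟩
    have hc0 : ∀ c ∈ invariants G, v'.Ge 0 (pol c) := by
      intro c hc
      have ha := hkey (φ.symm ⟨c, hc⟩)
      rw [AlgEquiv.apply_symm_apply] at ha
      refine Or.inr ?_
      rw [ha]
      exact mul_nonneg (by positivity) (hA _)
    have hnn : ∀ p, 0 ≤ v'.ord (pol p) := by
      intro p
      by_cases hp : pol p = 0
      · rw [hp, v'.ord_zero]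
      by_contra hneg
      obtain ⟨F, hF, hFc, hF0, hFd, -⟩ := POS.exists_orbit G p
      have h1 := POS.root_sum hF hF0
      have h2 : v'.Ge (((F.natDegree : ℤ) - 1) * v'.ord (pol p)) (pol p ^ F.natDegree) := by
        rw [h1]
        refine DivVal.Ge.neg (DivVal.Ge.sum _ _ fun i hi => ?_)
        have hi' := Finset.mem_range.1 hi
        have h3 : v'.Ge ((i : ℤ) * v'.ord (pol p)) (pol p ^ i) := (DivVal.Ge.self v' (pol p)).pow i
        refine ((hc0 _ (hFc i)).mul_left h3).mono ?_
        have h4 : (i : ℤ) ≤ (F.natDegree : ℤ) - 1 := by omega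
        exact mul_le_mul_of_nonpos_right h4 (by omega)
      have h3 := h2.le (pow_ne_zero _ hp)
      rw [DivVal.ord_pow] at h3
      nlinarith
    refine ⟨hnn, fun p hpc => ?_⟩
    have hp : p ≠ 0 := by
      intro h
      rw [h, map_zero] at hpc
      exact hpc rfl
    have hq : constantCoeff (∏ g : G, linSubst (g : GL (Fin n) ℂ) p) ≠ 0 := by
      rw [PST.const_norm]
      exact pow_ne_zero _ hpc
    have ha := hkey (φ.symm ⟨_, PST.norm_mem G p⟩)
    rw [AlgEquiv.apply_symm_apply] at ha
    have ham : φ.symm ⟨_, PST.norm_mem G p⟩ ∉ X.m := by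
      intro h
      have h1 := (hS.iso _).1 h
      rw [AlgEquiv.apply_symm_apply] at h1
      exact hq h1
    rw [hB _ ham, mul_zero] at ha
    have hprod : pol (∏ g : G, linSubst (g : GL (Fin n) ℂ) p) =
        ∏ g : G, pol (linSubst (g : GL (Fin n) ℂ) p) := map_prod (algebraMap _ (Rat n)) _ _
    have hne : ∀ g ∈ (Finset.univ : Finset G), pol (linSubst (g : GL (Fin n) ℂ) p) ≠ 0 := by
      intro g _
      refine POS.pol_ne fun h => ?_
      have h1 := CHG.const (g : GL (Fin n) ℂ) p
      rw [h, map_zero] at h1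
      exact hpc h1.symm
    have hsum : ∑ g : G, v'.ord (pol (linSubst (g : GL (Fin n) ℂ) p)) = 0 := by
      rw [← v'.ord_prod _ _ hne, ← hprod]
      exact ha
    have h1 := (Finset.sum_eq_zero_iff_of_nonneg fun g _ => hnn _).1 hsum 1 (Finset.mem_univ _)
    have h2 : linSubst ((1 : G) : GL (Fin n) ℂ) p = p := CHG.linSubst_one p
    rwa [h2] at h1
  · rintro ⟨hA, hB⟩
    refine ⟨fun a => ?_, fun a ha => ?_⟩
    · have h1 := hA (φ a)
      rw [hkey] at h1
      exact nonneg_of_mul_nonneg_right h1 he'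
    · have h1 := hB (φ a) fun h => ha ((hS.iso a).2 h)
      rw [hkey] at h1
      rcases mul_eq_zero.1 h1 with h2 | h2
      · exact absurd h2 he'.ne'
      · exact h2

end G4
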