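import Pool.Agent.G4.St
import Pool.Agent.MldGeo.Closed5
import Pool.Agent.MldGeo.FreeAge

/-!
# QTA: the total minimal log discrepancy of a quotient in terms of the ages
-/

namespace G4

open MldGeo MvPolynomial

open Pool.Agent.Mld (age)

noncomputable section

theorem t_QTA (h1 : Stmt_PST) (h2 : Stmt_TRT) (h3 : Stmt_MNT) (h4 : Stmt_LWT) (h5 : Stmt_UPT) :
    Stmt_QTA := by
  classical
  intro n X G _ T hn hT
  obtain ⟨hJ, φ, hφ, hcr⟩ := hT
  obtain ⟨alg, hQ⟩ := t_GAL X G φ hφ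
  have hCr : CrepantAt T φ := hcr
  have hd : ∀ v, T.disc v = T.logDisc v := MLQ.disc_eq T hJ
  have hlow : ∀ v : DivVal n X.K, X.Through v → 1 ≤ T.disc v ∨
      ∃ g ∈ G, g ≠ 1 ∧ age g ≤ T.disc v := by
    intro v hv
    rw [hd]
    exact h4 h1 h2 hQ hn T hCr v hv
  have hupp : ∀ g ∈ G, g ≠ 1 → ∃ v : DivVal n X.K, X.Through v ∧ T.disc v ≤ age g := by
    intro g hg hg1
    obtain ⟨v, hv, hle⟩ := h5 h1 h2 h3 hQ hn T hCr g hg hg1
    exact ⟨v, hv, (hd v).trans_le hle⟩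
  have hbdd : BddBelow {a : ℝ | ∃ v : DivVal n X.K, X.Through v ∧ T.disc v = a} := by
    refine ⟨0, ?_⟩
    rintro _ ⟨v, hv, rfl⟩
    rcases hlow v hv with h | ⟨g, -, -, h⟩
    · exact zero_le_one.trans h
    · exact (age_nonneg g).trans h
  have hne : {a : ℝ | ∃ v : DivVal n X.K, X.Through v ∧ T.disc v = a}.Nonempty := by
    obtain ⟨v, hv, -⟩ := c_UPP hQ hn T hCr 1 G.one_mem
    exact ⟨_, v, TDC.at_through hv, rfl⟩
  have key : ∀ g ∈ G, g ≠ 1 → (∀ h ∈ G, h ≠ 1 → age g ≤ age h) → age g < 1 →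
      tmld T = age g := by
    intro g hg hg1 hmin hlt
    refine le_antisymm ?_ (le_csInf hne ?_)
    · obtain ⟨v, hv, hle⟩ := hupp g hg hg1
      exact (csInf_le hbdd ⟨v, hv, rfl⟩).trans hle
    · rintro _ ⟨v, hv, rfl⟩
      rcases hlow v hv with h | ⟨g', hg', hg1', h⟩
      · exact hlt.le.trans h
      · exact (hmin g' hg' hg1').trans h
  refine ⟨fun hlt => ?_, key⟩
  obtain ⟨_, ⟨v, hv, rfl⟩, hvlt⟩ := exists_lt_of_csInf_lt hne hlt
  obtain ⟨g0, hg0, hg01, hle0⟩ : ∃ g ∈ G, g ≠ 1 ∧ age g ≤ T.disc v := by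
    rcases hlow v hv with h | h
    · linarith
    · exact h
  have hfin : {g : GL (Fin n) ℂ | g ∈ G ∧ g ≠ 1}.Finite :=
    (Set.toFinite (G : Set (GL (Fin n) ℂ))).subset fun g hg => hg.1
  obtain ⟨g, hg, hgm⟩ := hfin.exists_minimalFor age _ ⟨g0, hg0, hg01⟩
  have hmin : ∀ h ∈ G, h ≠ 1 → age g ≤ age h := by
    intro h hh hh1
    rcases le_total (age g) (age h) with h' | h'
    · exact h'
    · exact hgm ⟨hh, hh1⟩ h'
  have hlt1 : age g < 1 := ((hmin g0 hg0 hg01).trans hle0).trans_lt hvlt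
  exact ⟨g, hg.1, hg.2, (key g hg.1 hg.2 hmin hlt1).symm, hmin⟩

end

end G4
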