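import Pool.Agent.MldG.StmtsF
import Pool.Agent.MldGeo.Stmts2
import Pool.Agent.MldGap.Fam

/-!
# The sharp gap below one for the total minimal log discrepancy: statements

`X` without boundary and without ideals. The TOTAL minimal log discrepancy of a germ is the infimum
of the log discrepancies of all divisors over `X` whose centre CONTAINS `x` (not only of those whose
centre is `x`). Target: for toric germs (arbitrary closed points) and for the quotients of `ℂⁿ` by
finite groups, `n = 2, 3, 4`, the largest total minimal log discrepancy below `1` is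
`1 - 4 / (s² + 3)`, `s` the `n`-th Sylvester number (`2/3`, `12/13`, `462/463`).

The germs, triples and valuations here are those of `Pool.Agent.MldGeo`; the comparison with
`Pool.Agent.MldX` is made at the end.
-/

namespace G4

open MldGeo MvPolynomial

noncomputable section

/-- The total minimal log discrepancy. -/
def tmld {n : ℕ} {X : Germ n} (T : Triple X) : ℝ :=
  sInf {a : ℝ | ∃ v : DivVal n X.K, X.Through v ∧ T.disc v = a}

/-- The condition of the arithmetic core: the sum is `< 1` and it is minimal among the sums of the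
fractional parts of the multiples. -/
structure MinPt {n : ℕ} (x : Fin n → ℝ) : Prop where
  nonneg : ∀ i, 0 ≤ x i
  lt : ∑ i, x i < 1
  min : ∀ k : ℤ, (∃ i, Int.fract (k * x i) ≠ 0) → ∑ i, x i ≤ ∑ i, Int.fract (k * x i)

/-- The bound in dimension `n` holds for the arithmetic problem (proved by a certificate for
`n = 2, 3, 4`, `b = 2/3, 12/13, 462/463`). -/
def Core (n : ℕ) (b : ℝ) : Prop := ∀ x : Fin n → ℝ, MinPt x → ∑ i, x i ≤ b

/-! ## toric germs -/

/-- TFX: fixed points of toric varieties. PROOF. As `MldGeo/TDG.lean` (`TDG.lc`): `c_TOR` (in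
`MldGeo/Closed5.lean` all `Stmt_*` are proved as `c_*` or `t_*`) gives `χ, S`; `t_CON` the rays `ρ`;
`c_PSI` the function `ψ` (`A.InvTriple T` holds since there is no boundary and `J` is empty);
`NoBoundary` and TRAY give `ψ (toR (ρ i)) = 1`. For `v` with `X.Through v`,
`T.disc v = logOrd (torForm χ) + ψ (toR (ordVec χ v))`; `logOrd ≥ 0` (FDL), and if
`ordVec χ v = 0` then `T.disc v ≥ 1`, since then the `χ` are units along `v` and so
`torForm χ = (∏ χ_i)⁻¹ • dforms`, `dforms` of functions of order `0`, `REG` gives `logOrd ≥ 1`. The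
set of the integral vectors `z ≠ 0` of the cone with `ψ (toR z) ≤ 1` is finite (`z = ∑ c_i ρ_i`,
`∑ c_i ≤ 1`), nonempty if `tmld T < 1`; take one with the least value: it is primitive (`exists_primitive`
in TDC.lean), so GAV and TRAY give a valuation `v` with `X.Through v` and `T.disc v = ψ (toR z)`
(`Gauss.form`). So `tmld T = ψ (toR z)` (bounded below by `0`). Carathéodory
(`MldGap.caratheodory`) gives `z = ∑_{i∈I} x_i ρ_i`, independent, `|I| ≤ n`; extend the family
`x` by zero to `Fin n`; `∑ x_i = ψ z < 1`; for `k : ℤ` the vector `k z - ∑ ⌊k x_i⌋ ρ_i` is an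
integral vector of the cone. -/
def Stmt_TFX : Prop :=
  ∀ {n : ℕ} (X : Germ n) (_A : MldGeo.TorusAction X n) (T : Triple X) (b : ℝ), 0 < n → Core n b →
    IsEmpty T.J → T.NoBoundary → tmld T < 1 → tmld T ≤ b

/-- TRD: reduction to fixed points. PROOF. Copy `MldG/FXE.lean` with `tmld` in place of `mld`
(namespace `FXE`: `trf`, `lcz`, `af1`, `step`; property `Q b := b = 0`). `trf`: the sets of the
valuations `Through` correspond directly (`hTh`, `hD`). The step `kms` (and `km1`) is not needed: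
if the dimension of the torus is `n` and the orbit is closed then `MldG.Sat A` holds: if
`g ∈ A.gr (k u)` is a unit, take a homogeneous splitting `χ` (`t_SPL`); `χ_u ^ k = c g` with
`c` a constant (the invariant rational functions are constants as in `TAG.const_of_full`), so `χ_u` and
its inverse are integral over `R`, hence in `R` (normality), and `χ_u ∈ A.gr u` by `t_HOU`. At the end
use `TAG.toGeo` as in `MldG/SharpAsm.lean` (`toric_fixed`). `InvTriple` is automatic without boundary and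
ideals. -/
def Stmt_TRDX : Prop :=
  ∀ {n : ℕ} (X : Germ n) (_A : MldG.TorusAction X n) (T : Triple X), 0 < n →
    IsEmpty T.J → T.NoBoundary →
    ∃ (X' : Germ n) (_A' : MldGeo.TorusAction X' n) (T' : Triple X'),
      IsEmpty T'.J ∧ T'.NoBoundary ∧ tmld T' = tmld T

/-! ## quotients -/

/-- The centre of the valuation of `ℂ(x₁,…,xₙ)` on `ℂⁿ` contains the origin. -/
def CenT {n : ℕ} (v' : DivVal n (Rat n)) : Prop :=
  (∀ p, 0 ≤ v'.ord (pol p)) ∧ ∀ p, constantCoeff p ≠ 0 → v'.ord (pol p) = 0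

/-- PST. PROOF. As `MldGeo/POS.lean`: the polynomials are integral over the invariants, so they have
order `≥ 0`; if `p(0) ≠ 0` the norm `∏_{g ∈ G} g p` is invariant and does not vanish at the origin, so it
has order `0` and all its factors have order `≥ 0`. -/
def Stmt_PST : Prop :=
  ∀ {n : ℕ} {X : Germ n} {G : Subgroup (GL (Fin n) ℂ)} [Finite G] {φ : X.R ≃ₐ[ℂ] invariants G}
    [Algebra X.K (Rat n)], QSetup X G φ → ∀ (v' : DivVal n (Rat n)) (v : DivVal n X.K) (e : ℕ),
    IsExt v' v e → (X.Through v ↔ CenT v')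

/-- TRT: log discrepancies. PROOF. As `MldGeo/TRF.lean` and `MldGeo/UFQ.lean`, with `CenT` in place of
`Centred` (it is only used for: `constantCoeff q ≠ 0 → ord (pol q) = 0`). -/
def Stmt_TRT : Prop :=
  ∀ {n : ℕ} {X : Germ n} {G : Subgroup (GL (Fin n) ℂ)} [Finite G] {φ : X.R ≃ₐ[ℂ] invariants G}
    [Algebra X.K (Rat n)], QSetup X G φ → 0 < n → ∀ T : Triple X, CrepantAt T φ →
    ∀ (v' : DivVal n (Rat n)) (v : DivVal n X.K) (e : ℕ), IsExt v' v e → CenT v' →
      T.logDisc v * e = v'.logOrd (stdForm n)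

/-- LWT: the lower bound. PROOF. As `MldGeo/LOW.lean`; if the element `g` of the inertia group is `1`
then `e = 1` (apply INE to a uniformizer) and `logOrd (stdForm n) ≥ 1` (REG); if `g ≠ 1` then
`fr (l i) ≤ v'.ord (y i) / e` for every `i` (`v'.ord (y i) ≥ 0`). -/
def Stmt_LWT : Prop :=
  Stmt_PST → Stmt_TRT → ∀ {n : ℕ} {X : Germ n} {G : Subgroup (GL (Fin n) ℂ)} [Finite G]
    {φ : X.R ≃ₐ[ℂ] invariants G} [Algebra X.K (Rat n)], QSetup X G φ → 0 < n →
    ∀ T : Triple X, CrepantAt T φ → ∀ v : DivVal n X.K, X.Through v →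
      1 ≤ T.logDisc v ∨ ∃ g ∈ G, g ≠ 1 ∧ Pool.Agent.Mld.age g ≤ T.logDisc v

/-- MNT: monomial valuations with nonnegative weights. PROOF. As `MldGeo/MON.lean`. -/
def Stmt_MNT : Prop :=
  ∀ {n : ℕ} (P : GL (Fin n) ℂ) (a : Fin n → ℕ), 0 < n →
    (∃ c : Fin n → ℤ, ∑ i, c i * (a i : ℤ) = 1) →
    ∃ v' : DivVal n (Rat n), CenT v' ∧ v'.logOrd (stdForm n) = ∑ i, (a i : ℤ) ∧
      ∀ p : MvPolynomial (Fin n) ℂ, p ≠ 0 → ∃ m ∈ p.support,
        v'.ord (pol (linSubst P p)) = ∑ i, (a i : ℤ) * (m i : ℤ)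

/-- UPT: the upper bound. PROOF. As `MldGeo/UPP.lean` with the numbers `a i = N fr (l i) ≥ 0` (not all
`0` since `g ≠ 1`; `fr z = Int.fract (arg z / 2π)`) in place of `N th (l i)`. -/
def Stmt_UPT : Prop :=
  Stmt_PST → Stmt_TRT → Stmt_MNT → ∀ {n : ℕ} {X : Germ n} {G : Subgroup (GL (Fin n) ℂ)} [Finite G]
    {φ : X.R ≃ₐ[ℂ] invariants G} [Algebra X.K (Rat n)], QSetup X G φ → 0 < n →
    ∀ T : Triple X, CrepantAt T φ → ∀ g ∈ G, g ≠ 1 →
      ∃ v : DivVal n X.K, X.Through v ∧ T.logDisc v ≤ Pool.Agent.Mld.age g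

/-- The total minimal log discrepancy of a quotient in terms of the ages: if one of the two numbers is
`< 1` then they are equal. -/
def Stmt_QTA : Prop :=
  ∀ {n : ℕ} {X : Germ n} (G : Subgroup (GL (Fin n) ℂ)) [Finite G] (T : Triple X), 0 < n →
    T.IsLogQuotient G →
    (tmld T < 1 → ∃ g ∈ G, g ≠ 1 ∧ Pool.Agent.Mld.age g = tmld T ∧
      ∀ h ∈ G, h ≠ 1 → Pool.Agent.Mld.age g ≤ Pool.Agent.Mld.age h) ∧
    ∀ g ∈ G, g ≠ 1 → (∀ h ∈ G, h ≠ 1 → Pool.Agent.Mld.age g ≤ Pool.Agent.Mld.age h) →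
      Pool.Agent.Mld.age g < 1 → tmld T = Pool.Agent.Mld.age g

/-- AGC: the ages and the core. PROOF. `g ≠ 1` of minimal age `< 1`; `x_i = fr (l i)`, `l i` the
eigenvalues (`eig_pow`: the eigenvalues of `g ^ k` are the `l i ^ k`, and `fr (l ^ k) = fract (k fr l)`;
for negative `k` add a multiple of the order of `g`). If some `fract (k x_i) ≠ 0` then
`g ^ k ≠ 1`. -/
def Stmt_AGC : Prop :=
  ∀ {n : ℕ} (G : Subgroup (GL (Fin n) ℂ)) [Finite G] (b : ℝ), Core n b → ∀ g ∈ G, g ≠ 1 →
    (∀ h ∈ G, h ≠ 1 → Pool.Agent.Mld.age g ≤ Pool.Agent.Mld.age h) →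
    Pool.Agent.Mld.age g < 1 → Pool.Agent.Mld.age g ≤ b

/-- TQX: a quotient of `ℂⁿ` by a finite group of diagonal matrices is toric. PROOF. The lattice
`M = {u : ℤⁿ | the Laurent monomial x^u is invariant}` has finite index (it contains
`|G| ℤⁿ`), choose a basis `L : ℤⁿ ≃ M`; `gr w` = the regular functions `a` with
`φ a ∈ ℂ x^{L w}` (zero if `L w` is not in `ℕⁿ`). The invariant polynomials are the sums of invariant
monomials. Effective: every `u ∈ M` is a difference of two elements of `M ∩ ℕⁿ` (add a multiple of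
`|G| (1,…,1)`). -/
def Stmt_TQX : Prop :=
  ∀ {n : ℕ} (X : Germ n) (G : Subgroup (GL (Fin n) ℂ)) [Finite G], X.IsQuotient G →
    (∀ g ∈ G, ∀ i j, i ≠ j → (g : Matrix (Fin n) (Fin n) ℂ) i j = 0) →
    Nonempty (MldG.TorusAction X n)

/-- DFM: the extremal example with diagonal matrices. PROOF. `MldGap/Fam.lean` (`fam_exists`): the group
there is generated by the diagonal matrix `Mk.dg f`. -/
def Stmt_DFM : Prop :=
  ∀ N : ℕ, ∃ G : Subgroup (GL (Fin (N + 2)) ℂ), Finite G ∧ MldGap.ActsFreely G ∧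
    (∀ g ∈ G, ∀ i j, i ≠ j → (g : Matrix (Fin (N + 2)) (Fin (N + 2)) ℂ) i j = 0) ∧
    ∃ g ∈ G, g ≠ 1 ∧ (∀ h ∈ G, h ≠ 1 → Pool.Agent.Mld.age g ≤ Pool.Agent.Mld.age h) ∧
      Pool.Agent.Mld.age g = 1 - 4 / ((MldGap.sylvester (N + 1) : ℝ) ^ 2 + 3)

end

end G4
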