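import Pool.Agent.G4.St
import Pool.Agent.MldGeo.Closed5
import Pool.Agent.MldGap.Cone

/-!
# TFX: fixed points of toric varieties
-/

namespace G4

open MldGeo MldGap MldAcc

noncomputable section

namespace TFX

open TDC

variable {n : ℕ}

/-- If the characters are units along the divisor then the invariant form has order at least one. -/
theorem one_le {K : Type} [Field K] [Algebra ℂ K] {χ : (Fin n → ℤ) → K} (hn : 0 < n)
    (hχ : TorusField χ) (htr : Algebra.trdeg ℂ K = (n : Cardinal)) (v : DivVal n K)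
    (h0 : ordVec χ v = 0) : 1 ≤ v.logOrd (torForm χ) := by
  have h1 : ∀ i, v.ord (χ (Pi.single i 1)) = 0 := fun i => congrFun h0 i
  have hne : ∀ i : Fin n, χ (Pi.single i 1) ≠ 0 := fun i => chi_ne hχ _
  obtain ⟨h2, -⟩ := c_REG htr v (fun i => χ (Pi.single i 1)) hn (fun i => Or.inr (h1 i).ge)
    hχ.indep
  have h3 : dforms (fun i : Fin n => χ (Pi.single i 1)) =
      (∏ i : Fin n, χ (Pi.single i 1)) • torForm χ := LOW.dforms_eq _ hne
  have h4 := c_FSM htr v (∏ i : Fin n, χ (Pi.single i 1)) (torForm χ) hn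
    (Finset.prod_ne_zero_iff.2 fun i _ => hne i) (torForm_ne t_TBAS hχ htr)
  rw [← h3, DivVal.ord_prod v _ _ fun i _ => hne i, Finset.sum_eq_zero (fun i _ => h1 i),
    zero_add] at h4
  rw [← h4]
  exact h2

/-- Extension by zero. -/
theorem sum_extend {ι : Type} [Fintype ι] (f : ι ↪ Fin n) (x : ι → ℝ) (F : ℝ → ℝ) (hF : F 0 = 0) :
    ∑ j, F (Function.extend f x 0 j) = ∑ i, F (x i) := by
  symm
  refine Fintype.sum_of_injective f f.injective _ _ (fun j hj => ?_) fun i => ?_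
  · rw [Function.extend_apply' _ _ _ (fun ⟨a, ha⟩ => hj ⟨a, ha⟩)]
    exact hF
  · rw [f.injective.extend_apply]

theorem core_nonneg {b : ℝ} (h : Core n b) : 0 ≤ b := by
  have h1 := h (fun _ => 0) ⟨fun _ => le_rfl, by simp, fun k hk => by simp at hk⟩
  simpa using h1

/-- The core for a family of at most `n` numbers. -/
theorem core_of_le {b : ℝ} (h : Core n b) {ι : Type} [Fintype ι] (hc : Fintype.card ι ≤ n)
    (x : ι → ℝ) (h0 : ∀ i, 0 ≤ x i) (h1 : ∑ i, x i < 1)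
    (hm : ∀ k : ℤ, (∃ i, Int.fract (k * x i) ≠ 0) → ∑ i, x i ≤ ∑ i, Int.fract (k * x i)) :
    ∑ i, x i ≤ b := by
  obtain ⟨f⟩ : Nonempty (ι ↪ Fin n) :=
    Function.Embedding.nonempty_of_card_le (by simpa using hc)
  have hs := sum_extend f x id rfl
  simp only [id] at hs
  rw [← hs]
  refine h _ ⟨fun j => ?_, by rw [hs]; exact h1, fun k hk => ?_⟩
  · by_cases hj : ∃ i, f i = j
    · obtain ⟨i, rfl⟩ := hj
      rw [f.injective.extend_apply]
      exact h0 i
    · rw [Function.extend_apply' _ _ _ hj]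
      exact le_rfl
  · rw [hs, sum_extend f x (fun t => Int.fract (k * t)) (by simp)]
    apply hm
    obtain ⟨j, hj⟩ := hk
    by_cases hj' : ∃ i, f i = j
    · obtain ⟨i, rfl⟩ := hj'
      rw [f.injective.extend_apply] at hj
      exact ⟨i, hj⟩
    · rw [Function.extend_apply' _ _ _ hj'] at hj
      simp at hj

end TFX

open TFX TDC in
/-- TFX -/
theorem t_TFX : Stmt_TFX := by
  classical
  intro n X A T b hn hcore hJ hNB hlt
  have hInv : A.InvTriple T :=
    ⟨fun P b h hb => absurd (hNB P b h) hb, fun j => (hJ.false j).elim⟩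
  obtain ⟨χ, S, hT, hG⟩ := c_TOR X A
  have hχ : TorusField χ := hT.toTorusField
  have htf := torForm_ne t_TBAS hχ X.trdeg
  have hpt : ∀ u ∈ S, -u ∈ S → u = 0 := by
    intro u hu hnu
    by_contra hne
    have h1 := hT.pos u hu hne ((hT.mem_R u).1 hu)
    have h2 : (⟨χ (-u), (hT.mem_R _).1 hnu⟩ : X.R) * ⟨χ u, (hT.mem_R u).1 hu⟩ = 1 := by
      apply Subtype.ext
      show χ (-u) * χ u = 1
      rw [← hχ.add, neg_add_cancel, hχ.zero]
    have h3 : (1 : X.R) ∈ X.m := h2 ▸ X.m.mul_mem_left _ h1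
    exact X.max.ne_top ((Ideal.eq_top_iff_one _).2 h3)
  obtain ⟨r, ρ, hprim, hnonneg, hface, hcone, hint, hextr, y0, hy0⟩ := t_CON S hT.fg hT.gen hpt
  obtain ⟨ψ, hψ⟩ := c_PSI X A χ S hn hT hG T hInv
  choose vr hvr using fun i => c_GAV χ hχ X.trdeg (ρ i) (hprim i)
  have htray := fun i => c_TRAY X χ S hn hT (ρ i) (vr i) (hvr i) (hnonneg i)
  have hψρ : ∀ i, ψ (toR (ρ i)) = 1 := by
    intro i
    obtain ⟨P, hP, hord⟩ := (htray i).2.2 (hface i)
    have h1 : T.Coeff P (1 - T.logDisc (vr i)) := ⟨hP, vr i, hord, by ring⟩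
    have h2 := hNB P _ h1
    have h3 := hψ _ (htray i).1
    rw [ordVec_gauss (hvr i), (hvr i).form] at h3
    simp only [Int.cast_zero, zero_add] at h3
    rw [← h3]
    linarith
  have hdisc : ∀ v : DivVal n X.K, X.Through v →
      T.disc v = v.logOrd (torForm χ) + ψ (toR (ordVec χ v)) := fun v hv => by
    rw [MLQ.disc_eq T hJ, hψ v hv]
  have hlog : ∀ v : DivVal n X.K, (0 : ℝ) ≤ (v.logOrd (torForm χ) : ℝ) := fun v => by
    exact_mod_cast c_FDL X.trdeg v _ hn (fun i => chi_ne hχ _) htf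
  have hcv : ∀ v : DivVal n X.K, X.Through v → ∀ u ∈ S, 0 ≤ pair u (ordVec χ v) := by
    intro v hv u hu
    rw [← ord_chi hχ v u]
    exact hv.1 ⟨χ u, (hT.mem_R u).1 hu⟩
  -- representations of the integral vectors of the cone
  have hrep : ∀ z : Fin n → ℤ, (∀ u ∈ S, 0 ≤ pair u z) → ∃ c : Fin r → ℝ, (∀ i, 0 ≤ c i) ∧
      toR z = ∑ i, c i • toR (ρ i) ∧ ψ (toR z) = ∑ i, c i := by
    intro z hz
    have h3 : toR z ∈ coneOf (fun i => toR (ρ i)) := by
      rw [hcone]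
      intro u hu
      rw [form_toR]
      exact_mod_cast hz u hu
    obtain ⟨c, hc, he⟩ := h3
    refine ⟨c, hc, he, ?_⟩
    rw [he, map_sum]
    refine Finset.sum_congr rfl fun i _ => ?_
    rw [map_smul, hψρ, smul_eq_mul, mul_one]
  have hpos : ∀ z : Fin n → ℤ, (∀ u ∈ S, 0 ≤ pair u z) → z ≠ 0 → 0 < ψ (toR z) := by
    intro z hz hz0
    obtain ⟨c, hc, he, hs⟩ := hrep z hz
    rw [hs]
    refine lt_of_le_of_ne (Finset.sum_nonneg fun i _ => hc i) fun h => hz0 ?_
    have h1 := (Finset.sum_eq_zero_iff_of_nonneg fun i _ => hc i).1 h.symm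
    apply toR_inj
    rw [he, toR_zero]
    exact Finset.sum_eq_zero fun i hi => by rw [h1 i hi, zero_smul]
  have hval : ∀ z : Fin n → ℤ, (∀ u ∈ S, 0 ≤ pair u z) → z ≠ 0 →
      ∃ v : DivVal n X.K, X.Through v ∧ T.disc v ≤ ψ (toR z) := by
    intro z hz hz0
    obtain ⟨k, z1, hk, hz1, hu⟩ := exists_primitive z hz0
    obtain ⟨v, hv⟩ := c_GAV χ hχ X.trdeg z1 hu
    have hkR : (1 : ℝ) ≤ k := by exact_mod_cast hk
    have hnn : ∀ u ∈ S, 0 ≤ pair u z1 := by
      intro u hu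
      have h1 := hz u hu
      rw [hz1, pair_smul] at h1
      exact nonneg_of_mul_nonneg_right h1 (by omega)
    obtain ⟨h1, -, -⟩ := c_TRAY X χ S hn hT z1 v hv hnn
    refine ⟨v, h1, ?_⟩
    rw [hdisc v h1, ordVec_gauss hv, hv.form, hz1, toR_smul, map_smul, smul_eq_mul]
    have h2 : z1 ≠ 0 := by
      rintro rfl
      apply hz0
      rw [hz1, smul_zero]
    have h3 := hpos z1 hnn h2
    push_cast
    nlinarith
  have hbdd : BddBelow {a : ℝ | ∃ v : DivVal n X.K, X.Through v ∧ T.disc v = a} := by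
    refine ⟨0, ?_⟩
    rintro _ ⟨v, hv, rfl⟩
    rw [hdisc v hv]
    obtain ⟨c, hc, -, hs⟩ := hrep _ (hcv v hv)
    rw [hs]
    exact add_nonneg (hlog v) (Finset.sum_nonneg fun i _ => hc i)
  by_cases hne : {a : ℝ | ∃ v : DivVal n X.K, X.Through v ∧ T.disc v = a}.Nonempty
  swap
  · rw [Set.not_nonempty_iff_eq_empty] at hne
    unfold tmld
    rw [hne, Real.sInf_empty]
    exact core_nonneg hcore
  obtain ⟨_, ⟨v, hv, rfl⟩, hvlt⟩ := exists_lt_of_csInf_lt hne hlt
  have hz0 : ordVec χ v ≠ 0 := by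
    intro h
    have h1 := one_le hn hχ X.trdeg v h
    rw [hdisc v hv, h, toR_zero, map_zero, add_zero] at hvlt
    have h2 : (1 : ℝ) ≤ (v.logOrd (torForm χ) : ℝ) := by exact_mod_cast h1
    linarith
  have hzlt : ψ (toR (ordVec χ v)) < 1 := by
    have h1 := hlog v
    rw [hdisc v hv] at hvlt
    linarith
  -- the least value
  obtain ⟨Z, hZ⟩ : ∃ Z : Set (Fin n → ℤ), Z = {z | z ≠ 0 ∧ (∀ u ∈ S, 0 ≤ pair u z) ∧
    ψ (toR z) ≤ 1} := ⟨_, rfl⟩
  have hZf : Z.Finite := by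
    refine (Set.finite_Icc (fun j => -∑ i, |ρ i j|) (fun j => ∑ i, |ρ i j|)).subset ?_
    rw [hZ]
    rintro z ⟨-, hz1, hz2⟩
    obtain ⟨c, hc, he, hs⟩ := hrep z hz1
    have hc1 : ∀ i, c i ≤ 1 := fun i => by
      have h1 := Finset.single_le_sum (fun j _ => hc j) (Finset.mem_univ i)
      linarith
    have h1 : ∀ j, |z j| ≤ ∑ i, |ρ i j| := by
      intro j
      have h2 : (z j : ℝ) = ∑ i, c i * (ρ i j : ℝ) := by
        have h3 := congrFun he j
        rw [Finset.sum_apply] at h3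
        exact h3
      have h3 : |(z j : ℝ)| ≤ ∑ i, |(ρ i j : ℝ)| := by
        rw [h2]
        refine (Finset.abs_sum_le_sum_abs _ _).trans (Finset.sum_le_sum fun i _ => ?_)
        rw [abs_mul, abs_of_nonneg (hc i)]
        exact mul_le_of_le_one_left (abs_nonneg _) (hc1 i)
      exact_mod_cast h3
    exact ⟨fun j => neg_le_of_abs_le (h1 j), fun j => le_of_abs_le (h1 j)⟩
  have hZn : Z.Nonempty := ⟨ordVec χ v, by rw [hZ]; exact ⟨hz0, hcv v hv, hzlt.le⟩⟩
  obtain ⟨z, hzZ, hzmin⟩ := hZf.exists_minimalFor (fun z => ψ (toR z)) Z hZn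
  have hmin : ∀ w : Fin n → ℤ, w ≠ 0 → (∀ u ∈ S, 0 ≤ pair u w) → ψ (toR z) ≤ ψ (toR w) := by
    intro w hw0 hw
    have hz1 : ψ (toR z) ≤ 1 := by
      rw [hZ] at hzZ
      exact hzZ.2.2
    by_cases hw1 : ψ (toR w) ≤ 1
    · have hwZ : w ∈ Z := by
        rw [hZ]
        exact ⟨hw0, hw, hw1⟩
      rcases le_total (ψ (toR z)) (ψ (toR w)) with h | h
      · exact h
      · exact hzmin hwZ h
    · linarith
  rw [hZ] at hzZ
  obtain ⟨hz0', hzS, -⟩ := hzZ
  have hz1 : ψ (toR z) < 1 := lt_of_le_of_lt (hmin _ hz0 (hcv v hv)) hzlt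
  have hmld : tmld T ≤ ψ (toR z) := by
    obtain ⟨w, hw, hwd⟩ := hval z hzS hz0'
    exact (csInf_le hbdd ⟨w, hw, rfl⟩).trans hwd
  refine hmld.trans ?_
  -- Carathéodory
  have hzc : toR z ∈ coneOf (fun i => toR (ρ i)) := by
    rw [hcone]
    intro u hu
    rw [form_toR]
    exact_mod_cast hzS u hu
  obtain ⟨I, x, hx, hzx, hind⟩ := caratheodory (fun i => toR (ρ i)) (toR z) hzc
  have hψs : ∀ y : Fin r → ℝ, ψ (∑ i ∈ I, y i • toR (ρ i)) = ∑ i : I, y i := by
    intro y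
    rw [map_sum, Finset.sum_coe_sort I y]
    refine Finset.sum_congr rfl fun i _ => ?_
    rw [map_smul, hψρ, smul_eq_mul, mul_one]
  have hsum : ψ (toR z) = ∑ i : I, x i := by
    rw [hzx]
    exact hψs x
  rw [hsum] at hz1 ⊢
  refine core_of_le hcore (ι := I) ?_ (fun i => x i) (fun i => (hx i i.2).le) hz1 fun k hk => ?_
  · have := hind.fintype_card_le_finrank
    simpa using this
  · obtain ⟨i0, hi0⟩ := hk
    obtain ⟨w, hw⟩ : ∃ w : Fin n → ℤ, w = k • z - ∑ i ∈ I, ⌊(k : ℝ) * x i⌋ • ρ i := ⟨_, rfl⟩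
    have hwR : toR w = ∑ i ∈ I, Int.fract ((k : ℝ) * x i) • toR (ρ i) := by
      have h1 : toR (∑ i ∈ I, ⌊(k : ℝ) * x i⌋ • ρ i) =
          ∑ i ∈ I, (⌊(k : ℝ) * x i⌋ : ℝ) • toR (ρ i) := by
        funext j
        simp only [toR, Finset.sum_apply, Pi.smul_apply, smul_eq_mul, Int.cast_sum, Int.cast_mul]
      rw [hw, sub_eq_add_neg, toR_add, toR_neg, toR_smul, h1, hzx, Finset.smul_sum,
        ← sub_eq_add_neg, ← Finset.sum_sub_distrib]
      refine Finset.sum_congr rfl fun i _ => ?_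
      rw [smul_smul, ← sub_smul]
      rfl
    have hwS : ∀ u ∈ S, 0 ≤ pair u w := by
      intro u hu
      have h1 : (0 : ℝ) ≤ form u (toR w) := by
        rw [hwR, map_sum]
        refine Finset.sum_nonneg fun i _ => ?_
        rw [map_smul, smul_eq_mul, form_toR]
        refine mul_nonneg (Int.fract_nonneg _) ?_
        exact_mod_cast hnonneg i u hu
      rw [form_toR] at h1
      exact_mod_cast h1
    have hw0 : w ≠ 0 := by
      intro h
      rw [h, toR_zero] at hwR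
      have h1 : ∑ i : I, Int.fract ((k : ℝ) * x i) • toR (ρ i) = 0 := by
        rw [Finset.sum_coe_sort I (fun i => Int.fract ((k : ℝ) * x i) • toR (ρ i))]
        exact hwR.symm
      exact hi0 (Fintype.linearIndependent_iff.1 hind _ h1 i0)
    have h1 := hmin w hw0 hwS
    rw [hsum, hwR, hψs (fun i => Int.fract ((k : ℝ) * x i))] at h1
    exact h1

end

end G4
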