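import Pool.Agent.G4.St

set_option autoImplicit false

/-!
# TQX: a quotient of affine space by a finite group of diagonal matrices is toric
-/

namespace G4

open MldGeo MvPolynomial

noncomputable section

namespace TQX

variable {n : ℕ}

/-- the exponents -/
def ex (d : Fin n →₀ ℕ) : Fin n → ℤ := fun i => (d i : ℤ)

theorem ex_inj {d d' : Fin n →₀ ℕ} (h : ex d = ex d') : d = d' := by
  ext i
  have := congrFun h i
  simp only [ex] at this
  exact_mod_cast this

/-- the diagonal entries -/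
def dg (g : GL (Fin n) ℂ) (i : Fin n) : ℂ := (g : Matrix (Fin n) (Fin n) ℂ) i i

/-- the matrix is diagonal -/
def IsD (g : GL (Fin n) ℂ) : Prop :=
  ∀ i j, i ≠ j → (g : Matrix (Fin n) (Fin n) ℂ) i j = 0

theorem linSubst_X' {g : GL (Fin n) ℂ} (hg : IsD g) (i : Fin n) :
    linSubst g (X i) = C (dg g i) * X i := by
  have h1 : linSubst g (X i) = ∑ j, C ((g : Matrix (Fin n) (Fin n) ℂ) i j) * X j := by
    simp [linSubst]
  rw [h1, Finset.sum_eq_single i]
  · rfl
  · intro j _ hj
    rw [hg i j hj.symm, map_zero, zero_mul]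
  · intro h
    exact absurd (Finset.mem_univ i) h

theorem linSubst_mono {g : GL (Fin n) ℂ} (hg : IsD g) (d : Fin n →₀ ℕ) (a : ℂ) :
    linSubst g (monomial d a) = monomial d (a * ∏ i, dg g i ^ d i) := by
  have e : ∀ b : ℂ, (monomial d b : MvPolynomial (Fin n) ℂ) = C b * ∏ i, X i ^ d i := by
    intro b
    rw [monomial_eq, Finsupp.prod_fintype _ _ fun i => pow_zero _]
  rw [e, e, map_mul, map_prod]
  have h1 : linSubst g (C a) = C a := (linSubst g).commutes a
  rw [h1, map_mul, mul_assoc, map_prod, ← Finset.prod_mul_distrib]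
  congr 1
  refine Finset.prod_congr rfl fun i _ => ?_
  rw [map_pow, linSubst_X' hg, mul_pow, map_pow]

theorem coeff_linSubst {g : GL (Fin n) ℂ} (hg : IsD g) (d : Fin n →₀ ℕ)
    (p : MvPolynomial (Fin n) ℂ) :
    coeff d (linSubst g p) = coeff d p * ∏ i, dg g i ^ d i := by
  induction p using MvPolynomial.induction_on' with
  | monomial u a =>
    rw [linSubst_mono hg, coeff_monomial, coeff_monomial]
    split_ifs with h
    · rw [h]
    · rw [zero_mul]
  | add p q hp hq => rw [map_add, coeff_add, coeff_add, hp, hq, add_mul]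

theorem dg_pow {g : GL (Fin n) ℂ} (hg : IsD g) (i : Fin n) (k : ℕ) :
    dg (g ^ k) i = dg g i ^ k := by
  induction k with
  | zero => simp [dg]
  | succ k ih =>
    rw [pow_succ (dg g i), ← ih]
    have h1 : ((g ^ (k + 1) : GL (Fin n) ℂ) : Matrix (Fin n) (Fin n) ℂ) =
        ((g ^ k : GL (Fin n) ℂ) : Matrix (Fin n) (Fin n) ℂ) * (g : Matrix (Fin n) (Fin n) ℂ) := by
      rw [pow_succ, Units.val_mul]
    unfold dg
    rw [h1, Matrix.mul_apply, Finset.sum_eq_single i]
    · intro j _ hj
      rw [hg j i hj, mul_zero]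
    · intro h
      exact absurd (Finset.mem_univ i) h

theorem dg_card (G : Subgroup (GL (Fin n) ℂ)) [Finite G] {g : GL (Fin n) ℂ} (hg : g ∈ G)
    (hd : IsD g) (i : Fin n) : dg g i ^ Nat.card G = 1 := by
  rw [← dg_pow hd]
  have h1 : (⟨g, hg⟩ : G) ^ Nat.card G = 1 := pow_card_eq_one'
  have h2 : g ^ Nat.card G = 1 := congrArg Subtype.val h1
  rw [h2]
  simp [dg]

theorem card_pos (G : Subgroup (GL (Fin n) ℂ)) [Finite G] : 0 < Nat.card G := Nat.card_pos

variable (G : Subgroup (GL (Fin n) ℂ)) [Finite G] (hG : ∀ g ∈ G, IsD g)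

include hG in
theorem dg_ne {g : GL (Fin n) ℂ} (hg : g ∈ G) (i : Fin n) : dg g i ≠ 0 := by
  intro h
  have h1 := dg_card G hg (hG g hg) i
  rw [h, zero_pow (card_pos G).ne'] at h1
  exact zero_ne_one h1

/-- the lattice of the invariant Laurent monomials -/
def lat : Submodule ℤ (Fin n → ℤ) where
  carrier := {u | ∀ g ∈ G, ∏ i, dg g i ^ u i = 1}
  zero_mem' := fun g _ => by simp
  add_mem' := by
    intro a b ha hb g hg
    have h1 : ∀ i, dg g i ^ ((a + b) i) = dg g i ^ a i * dg g i ^ b i := fun i => by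
      rw [Pi.add_apply, zpow_add₀ (dg_ne G hG hg i)]
    rw [Finset.prod_congr rfl fun i _ => h1 i, Finset.prod_mul_distrib, ha g hg, hb g hg, mul_one]
  smul_mem' := by
    intro c a ha g hg
    have h1 : ∀ i, dg g i ^ ((c • a) i) = (dg g i ^ a i) ^ c := fun i => by
      rw [Pi.smul_apply, smul_eq_mul, mul_comm, zpow_mul]
    rw [Finset.prod_congr rfl fun i _ => h1 i, Finset.prod_zpow, ha g hg, one_zpow]

theorem mem_lat {u : Fin n → ℤ} : u ∈ lat G hG ↔ ∀ g ∈ G, ∏ i, dg g i ^ u i = 1 := Iff.rfl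

theorem card_mem (u : Fin n → ℤ) : (Nat.card G : ℤ) • u ∈ lat G hG := by
  intro g hg
  refine Finset.prod_eq_one fun i _ => ?_
  rw [Pi.smul_apply, smul_eq_mul, zpow_mul, zpow_natCast, dg_card G hg (hG g hg) i, one_zpow]

theorem exists_equiv : Nonempty ((Fin n → ℤ) ≃ₗ[ℤ] lat G hG) := by
  have h1 : Module.finrank ℤ (lat G hG) ≤ Module.finrank ℤ (Fin n → ℤ) := Submodule.finrank_le _
  let f : (Fin n → ℤ) →ₗ[ℤ] lat G hG :=
    { toFun := fun u => ⟨(Nat.card G : ℤ) • u, card_mem G hG u⟩
      map_add' := fun a b => Subtype.ext (smul_add _ _ _)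
      map_smul' := fun c a => Subtype.ext (smul_comm _ _ _) }
  have hf : Function.Injective f := by
    intro a b h
    have h2 : (Nat.card G : ℤ) • a = (Nat.card G : ℤ) • b := congrArg Subtype.val h
    have h3 : (Nat.card G : ℤ) ≠ 0 := by exact_mod_cast (card_pos G).ne'
    funext i
    have h4 := congrFun h2 i
    simp only [Pi.smul_apply, smul_eq_mul] at h4
    exact mul_left_cancel₀ h3 h4
  have h2 : Module.finrank ℤ (Fin n → ℤ) ≤ Module.finrank ℤ (lat G hG) :=
    LinearMap.finrank_le_finrank_of_injective hf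
  exact ⟨LinearEquiv.ofFinrankEq _ _ (le_antisymm h2 h1)⟩

variable {X : Germ n} (φ : X.R ≃ₐ[ℂ] invariants G) (L : (Fin n → ℤ) ≃ₗ[ℤ] lat G hG)

/-- the polynomial -/
def po (a : X.R) : MvPolynomial (Fin n) ℂ := (φ a : MvPolynomial (Fin n) ℂ)

theorem po_add (a b : X.R) : po G φ (a + b) = po G φ a + po G φ b := by simp [po]

theorem po_smul (c : ℂ) (a : X.R) : po G φ (c • a) = c • po G φ a := by simp [po]

theorem po_mul (a b : X.R) : po G φ (a * b) = po G φ a * po G φ b := by simp [po]

theorem po_one : po G φ 1 = 1 := by simp [po]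

theorem po_zero : po G φ 0 = 0 := by simp [po]

theorem po_eq_zero {a : X.R} (h : po G φ a = 0) : a = 0 := by
  have h1 : φ a = 0 := Subtype.ext h
  exact (map_eq_zero_iff φ φ.injective).1 h1

include hG in
theorem ex_mem {a : X.R} {d : Fin n →₀ ℕ} (h : coeff d (po G φ a) ≠ 0) : ex d ∈ lat G hG := by
  intro g hg
  have h1 : linSubst g (po G φ a) = po G φ a := (φ a).2 g hg
  have h2 := coeff_linSubst (hG g hg) d (po G φ a)
  rw [h1] at h2
  have h3 : ∏ i, dg g i ^ d i = 1 := by
    have h4 : coeff d (po G φ a) * ∏ i, dg g i ^ d i = coeff d (po G φ a) * 1 := by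
      rw [mul_one]; exact h2.symm
    exact mul_left_cancel₀ h h4
  simp only [ex, zpow_natCast]
  exact h3

/-- the weight spaces -/
def gr (w : Fin n → ℤ) : Submodule ℂ X.R where
  carrier := {a | ∀ d, coeff d (po G φ a) ≠ 0 → ex d = (L w : Fin n → ℤ)}
  zero_mem' := by
    intro d h
    rw [po_zero, coeff_zero] at h
    exact absurd rfl h
  add_mem' := by
    intro a b ha hb d h
    rw [po_add, coeff_add] at h
    by_cases h1 : coeff d (po G φ a) = 0
    · rw [h1, zero_add] at h
      exact hb d h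
    · exact ha d h1
  smul_mem' := by
    intro c a ha d h
    rw [po_smul, coeff_smul, smul_eq_mul] at h
    exact ha d (right_ne_zero_of_mul h)

theorem mem_gr {w : Fin n → ℤ} {a : X.R} :
    a ∈ gr G hG φ L w ↔ ∀ d, coeff d (po G φ a) ≠ 0 → ex d = (L w : Fin n → ℤ) := Iff.rfl

/-- the functions without terms of the weight -/
def ker (w : Fin n → ℤ) : Submodule ℂ X.R where
  carrier := {a | ∀ d, ex d = (L w : Fin n → ℤ) → coeff d (po G φ a) = 0}
  zero_mem' := by
    intro d _
    rw [po_zero, coeff_zero]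
  add_mem' := by
    intro a b ha hb d h
    rw [po_add, coeff_add, ha d h, hb d h, add_zero]
  smul_mem' := by
    intro c a ha d h
    rw [po_smul, coeff_smul, ha d h, smul_zero]

theorem mono_inv {d : Fin n →₀ ℕ} (h : ex d ∈ lat G hG) (c : ℂ) :
    (monomial d c : MvPolynomial (Fin n) ℂ) ∈ invariants G := by
  intro g hg
  have h1 := h g hg
  simp only [ex, zpow_natCast] at h1
  rw [linSubst_mono (hG g hg), h1, mul_one]

/-- the invariant monomials -/
def mono (d : Fin n →₀ ℕ) (h : ex d ∈ lat G hG) (c : ℂ) : X.R :=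
  φ.symm ⟨monomial d c, mono_inv G hG h c⟩

theorem po_mono (d : Fin n →₀ ℕ) (h : ex d ∈ lat G hG) (c : ℂ) :
    po G φ (mono G hG φ d h c) = monomial d c := by
  simp [po, mono]

theorem mono_mem (d : Fin n →₀ ℕ) (h : ex d ∈ lat G hG) (c : ℂ) :
    mono G hG φ d h c ∈ gr G hG φ L (L.symm ⟨ex d, h⟩) := by
  intro e he
  rw [po_mono, coeff_monomial] at he
  split_ifs at he with h1
  · rw [← h1, LinearEquiv.apply_symm_apply]
  · exact absurd rfl he

theorem indep : iSupIndep (gr G hG φ L) := by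
  rw [iSupIndep_def]
  intro w
  rw [Submodule.disjoint_def]
  intro a ha hb
  have h1 : (⨆ j, ⨆ (_ : j ≠ w), gr G hG φ L j) ≤ ker G hG φ L w := by
    refine iSup_le fun j => iSup_le fun hj => ?_
    intro b hb d hd
    by_contra h2
    have h3 := hb d h2
    rw [hd] at h3
    exact hj (L.injective (Subtype.ext h3)).symm
  have h2 := h1 hb
  refine po_eq_zero G φ ?_
  ext d
  rw [coeff_zero]
  by_contra h3
  exact h3 (h2 d (ha d h3))

theorem top : ⨆ w, gr G hG φ L w = ⊤ := by
  rw [eq_top_iff]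
  intro a _
  have h1 : a = ∑ d : (po G φ a).support,
      mono G hG φ d.1 (ex_mem G hG φ (mem_support_iff.1 d.2)) (coeff d.1 (po G φ a)) := by
    refine sub_eq_zero.1 (po_eq_zero G φ ?_)
    have h2 : ∀ (s : Finset (po G φ a).support) (f : (po G φ a).support → X.R),
        po G φ (∑ d ∈ s, f d) = ∑ d ∈ s, po G φ (f d) := by
      intro s f
      unfold po
      rw [map_sum]
      exact AddSubmonoidClass.coe_finsetSum _ _
    have h3 : ∀ b c : X.R, po G φ (b - c) = po G φ b - po G φ c := fun b c => by simp [po]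
    rw [h3, h2, sub_eq_zero]
    simp only [po_mono]
    rw [Finset.sum_coe_sort (po G φ a).support (fun d => monomial d (coeff d (po G φ a)))]
    exact (support_sum_monomial_coeff _).symm
  rw [h1]
  refine Submodule.sum_mem _ fun d _ => ?_
  exact Submodule.mem_iSup_of_mem _ (mono_mem G hG φ L _ _ _)

theorem internal : DirectSum.IsInternal (gr G hG φ L) :=
  DirectSum.isInternal_submodule_of_iSupIndep_of_iSup_eq_top (indep G hG φ L) (top G hG φ L)

theorem ex_zero : ex (0 : Fin n →₀ ℕ) = 0 := by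
  funext i
  simp [ex]

theorem ex_add (d d' : Fin n →₀ ℕ) : ex (d + d') = ex d + ex d' := by
  funext i
  simp [ex]

theorem gmonoid : SetLike.GradedMonoid (gr G hG φ L) where
  one_mem := by
    intro d h
    rw [po_one, coeff_one] at h
    split_ifs at h with h1
    · rw [← h1, ex_zero, map_zero]
      rfl
    · exact absurd rfl h
  mul_mem := by
    intro u v a b ha hb d h
    rw [po_mul, coeff_mul] at h
    obtain ⟨⟨d1, d2⟩, h1, h2⟩ := Finset.exists_ne_zero_of_sum_ne_zero h
    replace h1 : d1 + d2 = d := Finset.HasAntidiagonal.mem_antidiagonal.1 h1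
    rw [← h1, ex_add, ha d1 (left_ne_zero_of_mul h2), hb d2 (right_ne_zero_of_mul h2), map_add]
    rfl

theorem ne_bot (d : Fin n →₀ ℕ) (h : ex d ∈ lat G hG) :
    gr G hG φ L (L.symm ⟨ex d, h⟩) ≠ ⊥ := by
  intro h1
  have h2 := mono_mem G hG φ L d h 1
  rw [h1, Submodule.mem_bot] at h2
  have h3 := po_mono G hG φ d h 1
  rw [h2, po_zero] at h3
  exact one_ne_zero ((monomial_eq_zero).1 h3.symm)

theorem eff : AddSubgroup.closure {u | gr G hG φ L u ≠ ⊥} = ⊤ := by
  rw [eq_top_iff]
  intro w _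
  set K : ℕ := ∑ i, ((L w : Fin n → ℤ) i).natAbs with hK
  set v : Fin n → ℤ := (Nat.card G : ℤ) • fun _ => (K : ℤ) with hv
  have hvm : v ∈ lat G hG := card_mem G hG _
  have hum : (L w : Fin n → ℤ) + v ∈ lat G hG := Submodule.add_mem _ (L w).2 hvm
  have hc : (1 : ℤ) ≤ Nat.card G := by exact_mod_cast card_pos G
  have hv0 : ∀ i, (K : ℤ) ≤ v i := by
    intro i
    rw [hv, Pi.smul_apply, smul_eq_mul]
    nlinarith [Int.natCast_nonneg K]
  have hu0 : ∀ i, -(K : ℤ) ≤ (L w : Fin n → ℤ) i := by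
    intro i
    have h1 : ((L w : Fin n → ℤ) i).natAbs ≤ K := by
      rw [hK]
      exact Finset.single_le_sum (f := fun i => ((L w : Fin n → ℤ) i).natAbs)
        (fun _ _ => Nat.zero_le _) (Finset.mem_univ i)
    omega
  have key : ∀ (z : Fin n → ℤ) (hz : z ∈ lat G hG), (∀ i, 0 ≤ z i) →
      L.symm ⟨z, hz⟩ ∈ AddSubgroup.closure {u | gr G hG φ L u ≠ ⊥} := by
    intro z hz h0
    refine AddSubgroup.subset_closure ?_
    have h1 : ex (Finsupp.equivFunOnFinite.symm fun i => (z i).toNat) = z := by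
      funext i
      simp only [ex, Finsupp.equivFunOnFinite_symm_apply_apply]
      exact Int.toNat_of_nonneg (h0 i)
    have h2 : ex (Finsupp.equivFunOnFinite.symm fun i => (z i).toNat) ∈ lat G hG := by
      rw [h1]; exact hz
    have h3 := ne_bot G hG φ L _ h2
    have h4 : (⟨ex (Finsupp.equivFunOnFinite.symm fun i => (z i).toNat), h2⟩ : lat G hG) =
        ⟨z, hz⟩ := Subtype.ext h1
    rw [h4] at h3
    exact h3
  have h5 : w = L.symm ⟨(L w : Fin n → ℤ) + v, hum⟩ - L.symm ⟨v, hvm⟩ := by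
    rw [← map_sub]
    apply L.injective
    rw [LinearEquiv.apply_symm_apply]
    refine Subtype.ext ?_
    change (L w : Fin n → ℤ) = (L w : Fin n → ℤ) + v - v
    rw [add_sub_cancel_right]
  rw [h5]
  refine AddSubgroup.sub_mem _ (key _ _ fun i => ?_) (key _ _ fun i => ?_)
  · have := hv0 i
    have := hu0 i
    rw [Pi.add_apply]
    omega
  · have := hv0 i
    omega

end TQX

open TQX in
theorem t_TQX : Stmt_TQX := by
  intro n X G _ hX hG
  obtain ⟨φ, -⟩ := hX
  have hG' : ∀ g ∈ G, IsD g := hG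
  obtain ⟨L⟩ := exists_equiv G hG'
  exact ⟨{
    gr := gr G hG' φ L
    graded :=
      { toDecomposition := (internal G hG' φ L).chooseDecomposition
        toGradedMonoid := gmonoid G hG' φ L }
    effective := eff G hG' φ L }⟩

end

end G4
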