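import Pool.Agent.G4.St
import Pool.Agent.MldG.FXE
import Pool.Agent.MldG.TAG

/-!
# TRDX: reduction to fixed points for the total minimal log discrepancy

The variant of `FXE` for the total minimal log discrepancy.
-/

namespace MldG

open MldGeo G4

noncomputable section

namespace TRDX

open TRF in
theorem trf {n m m' : ℕ} {X X' : Germ n} (j : X'.K ≃ₐ[ℂ] X.K) (A : TorusAction X m)
    (A' : TorusAction X' m') (T : Triple X) (T' : Triple X') (Q : ℝ → Prop)
    (hTh : ∀ v : DivVal n X.K, X.Through v ↔ X'.Through (comap j v))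
    (hAt : ∀ v : DivVal n X.K, X.At v ↔ X'.At (comap j v))
    (hAT : ∀ v : DivVal n X.K, X.At v → X.Through v)
    (hD : ∀ v : DivVal n X.K, X.Through v →
      T'.logDisc (comap j v) = T.logDisc v ∧ T'.disc (comap j v) = T.disc v)
    (hr : ∀ i, ∃ k, T'.r i = T.r k) (hA' : ∀ i, A'.Inv (T'.a i))
    (hP : ∀ (v : DivVal n X.K) (P' : Ideal X'.R), X.Through v → X'.IsOrdAlong (comap j v) P' →
      ∃ P : Ideal X.R, X.IsOrdAlong v P ∧ (A.Inv P → A'.Inv P'))
    (hg : GoodE A T Q) : GoodE A' T' Q ∧ tmld T' = tmld T := by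
  refine ⟨(FXE.trf j A A' T T' Q hTh hAt hAT hD hr hA' hP hg).1, ?_⟩
  have e : {a : ℝ | ∃ v, X'.Through v ∧ T'.disc v = a} =
      {a : ℝ | ∃ v, X.Through v ∧ T.disc v = a} := by
    ext a
    constructor
    · rintro ⟨v', hv', rfl⟩
      have e : comap j (comap j.symm v') = v' := comap_comap j v'
      have h1 : X.Through (comap j.symm v') := by
        rw [hTh, e]
        exact hv'
      have h3 := (hD _ h1).2
      rw [e] at h3
      exact ⟨_, h1, h3.symm⟩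
    · rintro ⟨v, hv, rfl⟩
      exact ⟨comap j v, (hTh v).mp hv, (hD v hv).2⟩
  unfold tmld
  rw [e]

/-- Localization. -/
theorem lcz {n m : ℕ} {X : Germ n} (A : TorusAction X m) (T : Triple X) (Q : ℝ → Prop)
    (hG : GoodE A T Q) : ∃ (X' : Germ n) (A' : TorusAction X' m) (T' : Triple X'),
      GoodE A' T' Q ∧ tmld T' = tmld T ∧ ClosedOrbit A' := by
  classical
  have hATH : Stmt_ATH := t_ATH
  have hHOU : Stmt_HOU := t_HOU
  have hOLI : Stmt_OLI := t_OLI
  obtain ⟨F, hF, hom⟩ := LCZ.gens A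
  set f : X.R := ∏ g ∈ F with g ∉ X.m, g with hfdef
  have hf : f ∉ X.m := by
    intro h
    obtain ⟨g, hg, hgm⟩ := (X.max.isPrime.prod_mem_iff).mp h
    exact (Finset.mem_filter.mp hg).2 hgm
  have hfe : ∃ e, f ∈ A.gr e := by
    have h1 : f ∈ SetLike.homogeneousSubmonoid A.gr :=
      Submonoid.prod_mem _ fun g hg => hom g (Finset.mem_filter.mp hg).1
    exact h1
  obtain ⟨e, hfe⟩ := hfe
  have hdiv : ∀ g ∈ F, g ∉ X.m → g ∣ f := fun g hg hgm =>
    Finset.dvd_prod_of_mem _ (Finset.mem_filter.mpr ⟨hg, hgm⟩)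
  have hcl := LCZ.closed A hATH hHOU hf hfe F hF hom hdiv
  have htr := trf (X := X) (X' := LCZ.locG hATH hf) (AlgEquiv.refl : X.K ≃ₐ[ℂ] X.K) A
    (LCZ.act A hATH hf hfe) T (LCZ.tri hATH hf T) Q
    (fun v => LCZ.through_iff hATH hf v) (fun v => LCZ.at_iff hATH hf v) (hATH X).2
    (fun v hv => ⟨rfl, ?_⟩) (fun i => ⟨i, rfl⟩) (fun i => LCZ.inv_map A hATH hf hfe (hG.inv.2 i))
    (fun v P' hv hP' => LCZ.primes A hOLI hATH hHOU hf hfe v P' hv hP') hG
  · exact ⟨_, _, _, htr.1, htr.2, hcl⟩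
  · unfold Triple.disc
    refine congrArg₂ (· - ·) rfl ?_
    refine Finset.sum_congr rfl fun j _ => ?_
    change T.r j * _ = T.r j * _
    rw [← LCZ.idealOrd_map hATH hf hv (T.a_ne j)]
    rfl

/-- If the dimension of the torus is the dimension of `X` then the invariant rational functions are
constant. -/
theorem const_rat (hTRD : MldG.Stmt_TRD) {n : ℕ} {X : Germ n} (A : TorusAction X n) (h : X.K)
    (hh : A.Hom 0 h) : ∃ c : ℂ, h = algebraMap ℂ X.K c := by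
  have h1 := hTRD A
  have h2 : Algebra.trdeg ℂ A.K0 = 0 := by
    have h3 : Algebra.trdeg ℂ A.K0 + (n : Cardinal) = 0 + (n : Cardinal) := by
      rw [h1, zero_add]
    exact (Cardinal.add_right_inj_of_lt_aleph0 (Cardinal.natCast_lt_aleph0)).1 h3
  have h3 : Algebra.IsAlgebraic ℂ A.K0 := trdeg_eq_zero_iff.1 h2
  obtain ⟨c, hc⟩ := (IsAlgClosed.algebraMap_bijective_of_isIntegral (k := ℂ) (K := A.K0)).2
    ⟨h, hh⟩
  refine ⟨c, ?_⟩
  have h5 := congrArg (fun z : A.K0 => (z : X.K)) hc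
  exact h5.symm

theorem chi_ne {n m : ℕ} {X : Germ n} {A : TorusAction X m} (S : Splitting A) (u : Fin m → ℤ) :
    S.χ u ≠ 0 := by
  intro h
  have h1 := S.add u (-u)
  rw [add_neg_cancel, S.zero, h, zero_mul] at h1
  exact one_ne_zero h1

/-- The group of the weights of units is saturated if the dimension of the torus is the dimension
of `X`. -/
theorem sat_full {n : ℕ} {X : Germ n} (A : TorusAction X n) : Sat A := by
  rintro u k hk ⟨g, hg, hgu⟩
  have hHOU : Stmt_HOU := t_HOU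
  have hHFK : Stmt_HFK := t_HFK t_HLI t_HFR
  have hTRD : Stmt_TRD := t_TRD t_SPL hHFK
  obtain ⟨S⟩ := t_SPL A
  obtain ⟨g', hg'⟩ := hgu.exists_right_inv
  have hgK : (g : X.K) * (g' : X.K) = 1 := congrArg Subtype.val hg'
  have hχ := chi_ne S u
  have hw : A.Hom (k • u) (g : X.K) := by
    rw [← natCast_zsmul]
    exact TorusAction.Hom.of_mem hg
  have hg0 : (g : X.K) ≠ 0 := left_ne_zero_of_mul_eq_one hgK
  have h1 : A.Hom 0 (S.χ u ^ k * (g : X.K)⁻¹) := by
    have h2 := ((S.hom u).pow k).mul (hw.inv hg0)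
    rwa [add_neg_cancel] at h2
  obtain ⟨c, hc⟩ := const_rat hTRD A _ h1
  have hc0 : c ≠ 0 := by
    rintro rfl
    rw [map_zero] at hc
    exact mul_ne_zero (pow_ne_zero _ hχ) (inv_ne_zero hg0) hc
  have e1 : S.χ u ^ k = algebraMap X.R X.K (algebraMap ℂ X.R c * g) := by
    have h2 : S.χ u ^ k = algebraMap ℂ X.K c * (g : X.K) := by
      rw [← hc]
      field_simp
    rw [h2, map_mul]
    rfl
  have e2 : (S.χ u)⁻¹ ^ k = algebraMap X.R X.K (algebraMap ℂ X.R c⁻¹ * g') := by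
    have h2 : (S.χ u)⁻¹ ^ k = algebraMap ℂ X.K c⁻¹ * (g' : X.K) := by
      have h3 : S.χ u ^ k = algebraMap ℂ X.K c * (g : X.K) := by
        rw [← hc]
        field_simp
      have h4 : (g' : X.K) = (g : X.K)⁻¹ := eq_inv_of_mul_eq_one_right hgK
      rw [inv_pow, h3, mul_inv, map_inv₀, h4]
    rw [h2, map_mul]
    rfl
  have i1 : S.χ u ∈ X.R := by
    apply X.normal
    apply IsIntegral.of_pow hk
    rw [e1]
    exact isIntegral_algebraMap
  have i2 : (S.χ u)⁻¹ ∈ X.R := by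
    apply X.normal
    apply IsIntegral.of_pow hk
    rw [e2]
    exact isIntegral_algebraMap
  refine ⟨⟨S.χ u, i1⟩, (hHOU A).1 u ⟨S.χ u, i1⟩ (S.hom u), ?_⟩
  have h5 : (⟨S.χ u, i1⟩ : X.R) * ⟨(S.χ u)⁻¹, i2⟩ = 1 :=
    Subtype.ext (mul_inv_cancel₀ hχ)
  exact IsUnit.of_mul_eq_one _ h5

/-- Replacing a factor `ℂ^*` by the affine line. -/
theorem af1 {n m : ℕ} {X : Germ n} (A : TorusAction X m) (T : Triple X) (Q : ℝ → Prop)
    (hn : 0 < n) (hG : GoodE A T Q) (hCO : ClosedOrbit A) (hSat : Sat A)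
    (φ : (Fin m → ℤ) →+ ℤ) (u : Fin m → ℤ) (hUW : UnitWt A u) (hφ : φ u = 1) :
    ∃ (X' : Germ n) (A' : TorusAction X' m) (T' : Triple X'),
      GoodE A' T' Q ∧ tmld T' = tmld T ∧ ClosedOrbit A' ∧ Sat A' ∧
        ∀ w, UnitWt A' w ↔ UnitWt A w ∧ φ w = 0 := by
  have hAFX : Stmt_AFX := t_AFX t_ATH t_HOU t_OLI
  have hHOU : Stmt_HOU := t_HOU
  have hISO : Stmt_ISO := t_ISO
  have hATH : Stmt_ATH := t_ATH
  obtain ⟨g, hg, hgu⟩ := hUW
  obtain ⟨X', j, A', h1, h2, h3, h4, h5, h6, h7⟩ := hAFX A φ u g hn hgu hg hφ hCO hSat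
  obtain ⟨ω', hω0, hω⟩ := hISO j T.ω T.ω_ne
  let T' : Triple X' :=
    { ω := ω'
      ω_ne := hω0
      I := T.I
      finI := T.finI
      f := fun i => j.symm (T.f i)
      f_ne := fun i => by simpa using T.f_ne i
      c := T.c
      J := T.J
      finJ := T.finJ
      a := fun i => Ideal.span (AF1.gens j A φ (T.a i))
      a_ne := fun i => AF1.gens_ne j A A' φ hHOU hg hgu hφ h4 (hG.inv.2 i) (T.a_ne i)
      r := T.r
      r_nonneg := T.r_nonneg }
  have hlog : ∀ v : DivVal n X.K, T'.logDisc (comap j v) = T.logDisc v := by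
    intro v
    show 1 + ((comap j v).formOrd ω' : ℝ) +
      ∑ i, T.c i * ((v.ord (j (j.symm (T.f i))) : ℤ) : ℝ) = _
    rw [hω v]
    simp only [AlgEquiv.apply_symm_apply]
    rfl
  obtain ⟨k1, k2⟩ := trf j A A' T T' Q h1 h2 (hATH X).2
    (fun v hv => by
      refine ⟨hlog v, ?_⟩
      show T'.logDisc (comap j v) - ∑ i, T.r i *
        ((idealOrd (comap j v) (Ideal.span (AF1.gens j A φ (T.a i))) : ℤ) : ℝ) = _
      rw [hlog v]
      show _ = T.logDisc v - ∑ i, T.r i * ((idealOrd v (T.a i) : ℤ) : ℝ)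
      congr 1
      refine Finset.sum_congr rfl fun i _ => ?_
      rw [AF1.ord_eq j A A' φ hHOU hg hgu hφ h4 (hG.inv.2 i) (T.a_ne i) hv ((h1 v).1 hv)])
    (fun i => ⟨i, rfl⟩) (fun i => AF1.gens_inv j A A' φ h4 (T.a i))
    (fun v P' hv hP' => by
      obtain ⟨P, hP⟩ := h3 v P' hv hP'
      refine ⟨P, hP, fun hInv => ?_⟩
      have hPne : P ≠ ⊥ := by
        rintro rfl
        have h8 := hP.2.1
        rw [Ideal.height_bot] at h8
        exact zero_ne_one h8
      obtain ⟨s, hs, rfl⟩ := hInv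
      obtain ⟨a, ha, ha0⟩ : ∃ a ∈ s, a ≠ 0 := by
        by_contra hno
        push Not at hno
        apply hPne
        rw [Ideal.span_eq_bot]
        exact hno
      obtain ⟨w, hw⟩ := hs a ha
      obtain ⟨h, a', w', k1, k2, -, k4, k5⟩ := AF1.exists_gen j A A' φ hHOU hg hgu hφ h4 hw
        (Ideal.subset_span ha) ha0
      have hpos : 0 < v.ord (a : X.K) :=
        ((hP.2.2.2 a).1 (Ideal.subset_span ha)).resolve_left ha0
      refine (hHOU A').2.2.2.2 P' (comap j v) hP' ⟨w', a', k5, k4, ?_⟩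
      refine (hP'.2.2.2 a').2 (Or.inr ?_)
      show 0 < v.ord (j (a' : X'.K))
      rw [k2, AF1.ord_mul_unit hv ha0 k1]
      exact hpos) hG
  exact ⟨X', A', T', k1, k2, h5, h6, h7⟩

/-- The induction. -/
theorem step {n m : ℕ} (Q : ℝ → Prop) (hn : 0 < n) (hHOU : Stmt_HOU) (r : ℕ) :
    ∀ (X : Germ n) (A : TorusAction X m) (T : Triple X), FXP.rk (FXP.unitWts hHOU A) = r →
      GoodE A T Q → ClosedOrbit A → Sat A →
      ∃ (X' : Germ n) (A' : TorusAction X' m) (T' : Triple X'),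
        GoodE A' T' Q ∧ tmld T' = tmld T ∧ Fixed A' := by
  induction r using Nat.strong_induction_on with
  | _ r ih =>
    intro X A T hr hG hC hS
    by_cases h : ∃ w, w ≠ 0 ∧ UnitWt A w
    · obtain ⟨w, hw, hwU⟩ := h
      obtain ⟨k, u, φ, hk, hwu, hφ⟩ := FXP.exists_primitive w hw
      have hu : UnitWt A u := hS u k hk (by rwa [← hwu])
      obtain ⟨X', A', T', hG', hT', hC', hS', hU'⟩ := af1 A T Q hn hG hC hS φ u hu hφ
      have hlt : FXP.rk (FXP.unitWts hHOU A') < r := by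
        rw [← hr]
        exact FXP.rk_lt _ _ φ u hu hφ hU'
      obtain ⟨X'', A'', T'', hG'', hT'', hF''⟩ := ih _ hlt X' A' T' rfl hG' hC' hS'
      exact ⟨X'', A'', T'', hG'', by rw [hT'', hT'], hF''⟩
    · refine ⟨X, A, T, hG, rfl, fun u hu a ha => ?_⟩
      by_contra hm
      exact h ⟨u, hu, hC u ⟨a, ha, hm⟩⟩

end TRDX

end

end MldG

namespace G4

open MldGeo

theorem t_TRDX : Stmt_TRDX := by
  intro n X A T hn hJ hB
  have hG : MldG.GoodE A T (fun b => b = 0) :=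
    ⟨⟨fun P b hb hb0 => absurd (hB P b hb) hb0, fun j => (hJ.false j).elim⟩, hB, hJ⟩
  obtain ⟨X1, A1, T1, hG1, hT1, hC1⟩ := MldG.TRDX.lcz A T _ hG
  obtain ⟨X', A', T', hG', hT', hF⟩ := MldG.TRDX.step _ hn MldG.t_HOU _ X1 A1 T1 rfl hG1 hC1
    (MldG.TRDX.sat_full A1)
  have hHFK : MldG.Stmt_HFK := MldG.t_HFK MldG.t_HLI MldG.t_HFR
  have hTRD : MldG.Stmt_TRD := MldG.t_TRD MldG.t_SPL hHFK
  exact ⟨X', MldG.TAG.toGeo A' (MldG.TAG.const_of_full hTRD A') hF, T', hG'.emp, hG'.co,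
    hT'.trans hT1⟩

end G4
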