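import Pool.Agent.G4.St
import Pool.Agent.MldGeo.Closed5

/-!
# TRT: log discrepancies of a quotient, for centres containing the image of the origin
-/

set_option autoImplicit false

namespace G4

open MldGeo MvPolynomial

namespace TRT

open MldGeo.UFQ in
/-- UFQ for valuations whose centre contains the origin -/
theorem ufq {n : ℕ} {ι : Type} [Fintype ι] (f : ι → Rat n) (c : ι → ℝ) (hf : ∀ i, f i ≠ 0)
    (H : ∀ (q : MvPolynomial (Fin n) ℂ) (w : DivVal n (Rat n)), Irreducible q →
      constantCoeff q = 0 → (∀ p, p ≠ 0 → w.ord (pol p) = multiplicity q p) →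
        ∑ i, c i * w.ord (f i) = 0) (v' : DivVal n (Rat n)) (hv : CenT v') :
    ∑ i, c i * v'.ord (f i) = 0 := by
  classical
  choose a b ha hb hab using fun i => ORQ.exists_rep (hf i)
  obtain ⟨Q, hQ, hQ', hQf⟩ := reps (∏ i, a i * b i)
    (Finset.prod_ne_zero_iff.2 fun i _ => mul_ne_zero (ha i) (hb i))
  have hda : ∀ i, a i ∣ ∏ i, a i * b i := fun i =>
    (dvd_mul_right _ _).trans (Finset.dvd_prod_of_mem _ (Finset.mem_univ i))
  have hdb : ∀ i, b i ∣ ∏ i, a i * b i := fun i =>
    (dvd_mul_left _ _).trans (Finset.dvd_prod_of_mem _ (Finset.mem_univ i))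
  have hord : ∀ (v : DivVal n (Rat n)) i, v.ord (f i) = v.ord (pol (a i)) - v.ord (pol (b i)) := by
    intro v i
    rw [← hab i, v.ord_mul _ _ (hf i) (ORQ.pol_ne (hb i)), add_sub_cancel_right]
  have hv1 : ∀ i, v'.ord (f i) =
      ∑ q ∈ Q, ((multiplicity q (a i) : ℤ) - multiplicity q (b i)) * v'.ord (pol q) := by
    intro i
    rw [hord, ord_pol v' Q hQ hQ' (a i) (ha i) fun π hπ hd => hQf π hπ (hd.trans (hda i)),
      ord_pol v' Q hQ hQ' (b i) (hb i) fun π hπ hd => hQf π hπ (hd.trans (hdb i)),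
      ← Finset.sum_sub_distrib]
    exact Finset.sum_congr rfl fun q _ => by ring
  have hv2 : ∑ i, c i * (v'.ord (f i) : ℝ) = ∑ q ∈ Q, (v'.ord (pol q) : ℝ) *
      ∑ i, c i * (((multiplicity q (a i) : ℤ) - (multiplicity q (b i) : ℤ) : ℤ) : ℝ) := by
    simp_rw [hv1, Finset.mul_sum]
    push_cast
    simp_rw [Finset.mul_sum]
    rw [Finset.sum_comm]
    exact Finset.sum_congr rfl fun q _ => Finset.sum_congr rfl fun i _ => by ring
  rw [hv2]
  refine Finset.sum_eq_zero fun q hq => ?_
  by_cases hc : constantCoeff q = 0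
  · obtain ⟨w, hw, _⟩ := c_ORQ q (hQ q hq)
    have h2 := H q w (hQ q hq) hc hw
    have h3 : ∀ i, w.ord (f i) = (multiplicity q (a i) : ℤ) - (multiplicity q (b i) : ℤ) := by
      intro i
      rw [hord, hw _ (ha i), hw _ (hb i)]
    simp_rw [h3] at h2
    rw [h2, mul_zero]
  · rw [hv.2 q hc]
    simp

end TRT

theorem t_TRT : Stmt_TRT := by
  intro n X G _ φ _ hS hn T hC v' v e hE hcen
  have := hS.tower
  have := hS.fin
  obtain ⟨h, hh, H⟩ := TRF.key c_PUL c_TXT hS hn T
  have hinj : Function.Injective (algebraMap X.K (Rat n)) := (algebraMap X.K (Rat n)).injective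
  have hz := TRT.ufq (ι := Option T.I) (fun i => i.elim h fun i => algebraMap X.K (Rat n) (T.f i))
    (fun i => i.elim 1 T.c) (by
      rintro (_ | i)
      · exact hh
      · exact (map_ne_zero_iff _ hinj).2 (T.f_ne i)) (by
      intro q w hq hq0 hw
      obtain ⟨w0, hw0, hs⟩ := c_ORQ q hq
      have hww : ∀ a, w.ord a = w0.ord a := TRF.ord_eq w w0 fun p hp => by rw [hw p hp, hw0 p hp]
      obtain ⟨vq, eq, hEq⟩ := t_EXR (K := X.K) w0 hn
      have hc := hC q hq hq0 vq eq (by
        intro a ha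
        rw [← hEq.2, hS.map a, hw0]
        intro h0
        apply ha
        have h6 : φ a = 0 := Subtype.ext h0
        exact (map_eq_zero_iff φ φ.injective).1 h6)
      have hk := H w0 vq eq hEq
      rw [hc, hs] at hk
      rw [Fintype.sum_option]
      simp only [Option.elim, hww]
      push_cast at hk
      linarith) v' hcen
  have hk := H v' v e hE
  rw [Fintype.sum_option] at hz
  simp only [Option.elim] at hz
  rw [hk]
  linarith

end G4
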