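import Pool.Agent.G4.St
import Pool.Agent.MldGeo.UPP
import Pool.Agent.MldGeo.EXR
import Pool.Agent.MldGeo.DIA

/-!
# The upper bound for the log discrepancies over the total germ
-/

namespace G4

open MldGeo MvPolynomial

noncomputable section

namespace UPT

variable {n : ℕ}

theorem exp_fr {z : ℂ} (hz : ‖z‖ = 1) :
    Complex.exp (((2 * Real.pi * Pool.Agent.Mld.fr z : ℝ) : ℂ) * Complex.I) = z := by
  have h1 := MldGap.exp_th hz
  by_cases h : Pool.Agent.Mld.fr z = 0
  · have h2 : MldGap.th z = 1 := if_pos h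
    rw [h2] at h1
    rw [h]
    have h3 : Complex.exp (((2 * Real.pi * (1 : ℝ) : ℝ) : ℂ) * Complex.I) = 1 := by
      rw [Complex.exp_eq_one_iff]
      exact ⟨1, by push_cast; ring⟩
    rw [h3] at h1
    rw [← h1]
    simp
  · have h2 : MldGap.th z = Pool.Agent.Mld.fr z := if_neg h
    rw [h2] at h1
    exact h1

theorem root_exp {z : ℂ} {N : ℕ} (hN : 0 < N) (hz : z ^ N = 1) :
    ∃ a : ℕ, (a : ℝ) = N * Pool.Agent.Mld.fr z ∧
      z = Complex.exp (2 * Real.pi * Complex.I * (a / N)) := by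
  have hN' : (0 : ℝ) < N := by exact_mod_cast hN
  have hnorm : ‖z‖ = 1 := Complex.norm_eq_one_of_pow_eq_one hz hN.ne'
  have h1 := exp_fr hnorm
  have hz' := hz
  rw [← h1, ← Complex.exp_nat_mul, Complex.exp_eq_one_iff] at hz'
  obtain ⟨k, hk⟩ := hz'
  have hpi : (2 * Real.pi * Complex.I : ℂ) ≠ 0 := Complex.two_pi_I_ne_zero
  have h2 : ((N * Pool.Agent.Mld.fr z : ℝ) : ℂ) = ((k : ℝ) : ℂ) := by
    have h3 : ((N * Pool.Agent.Mld.fr z : ℝ) : ℂ) * (2 * Real.pi * Complex.I) =
        ((k : ℝ) : ℂ) * (2 * Real.pi * Complex.I) := by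
      have h4 : (((k : ℝ) : ℂ)) = (k : ℂ) := by push_cast; rfl
      rw [h4, ← hk]
      push_cast
      ring
    exact mul_right_cancel₀ hpi h3
  have h3 : N * Pool.Agent.Mld.fr z = (k : ℝ) := by exact_mod_cast h2
  have hk0 : (0 : ℝ) ≤ (k : ℝ) := by
    rw [← h3]
    exact mul_nonneg hN'.le (Int.fract_nonneg _)
  have hk1 : 0 ≤ k := by exact_mod_cast hk0
  obtain ⟨a, rfl⟩ := Int.eq_ofNat_of_zero_le hk1
  refine ⟨a, by rw [h3]; push_cast; rfl, ?_⟩
  have h5 : Pool.Agent.Mld.fr z = (a : ℝ) / N := by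
    rw [eq_div_iff hN'.ne', mul_comm, h3]
    push_cast
    rfl
  conv_lhs => rw [← h1, h5]
  congr 1
  push_cast
  ring

theorem eq_one_of_eig {g P : GL (Fin n) ℂ}
    (h : ∀ i, linSubst g (linSubst P (X i)) = linSubst P (X i)) : g = 1 := by
  have h1 : (linSubst g).comp (linSubst P) = linSubst P := by
    refine MvPolynomial.algHom_ext fun i => ?_
    rw [AlgHom.comp_apply, h i]
  have h2 : ∀ p : MvPolynomial (Fin n) ℂ, linSubst g p = p := by
    intro p
    have h3 := DFunLike.congr_fun h1 (linSubst P⁻¹ p)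
    rw [AlgHom.comp_apply, UPP.linSubst_comp P, inv_mul_cancel, UPP.linSubst_one] at h3
    exact h3
  apply Units.ext
  ext i j
  have h3 := congrArg (coeff (Finsupp.single j 1)) (h2 (X i))
  rw [Units.val_one, Matrix.one_apply]
  simp only [linSubst, aeval_X, coeff_sum, coeff_C_mul, coeff_X'] at h3
  simp only [Finsupp.single_left_inj one_ne_zero] at h3
  rw [Finset.sum_eq_single j] at h3
  · rw [if_pos rfl, mul_one] at h3
    exact h3
  · intro k _ hk
    rw [if_neg hk, mul_zero]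
  · intro h4
    exact absurd (Finset.mem_univ j) h4

end UPT

theorem t_UPT : Stmt_UPT := by
  intro h2 h5 h4 n X G _ φ _ hQ hn T hC g hg hg1
  have h1 : Stmt_EXR := t_EXR
  have h3 : Stmt_DIA := t_DIA
  have := hQ.tower
  have := hQ.fin
  have hfin : IsOfFinOrder g := by
    have := isOfFinOrder_of_finite (⟨g, hg⟩ : G)
    obtain ⟨m, hm, hm1⟩ := this.exists_pow_eq_one
    exact isOfFinOrder_iff_pow_eq_one.2 ⟨m, hm, by simpa using congrArg Subtype.val hm1⟩
  obtain ⟨N, hN⟩ : ∃ N, N = orderOf g := ⟨_, rfl⟩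
  have hN0 : 0 < N := by rw [hN]; exact hfin.orderOf_pos
  obtain ⟨P, l, hl, hl1, hroots⟩ := h3 g hfin
  rw [← hN] at hl1
  choose a ha1 ha2 using fun i => UPT.root_exp hN0 (hl1 i)
  have hage : Pool.Agent.Mld.age g = ∑ i, Pool.Agent.Mld.fr (l i) := by
    unfold Pool.Agent.Mld.age Pool.Agent.Mld.eig
    rw [hroots, Multiset.map_map]
    rfl
  have hne : (Finset.univ : Finset (Fin n)).Nonempty := ⟨⟨0, hn⟩, Finset.mem_univ _⟩
  obtain ⟨b, hb, hb1⟩ := Finset.extract_gcd a hne
  obtain ⟨d, hd⟩ : ∃ d, d = Finset.univ.gcd a := ⟨_, rfl⟩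
  rw [← hd] at hb
  have hd0 : 0 < d := by
    rcases Nat.eq_zero_or_pos d with h | h
    · exfalso
      apply hg1
      apply UPT.eq_one_of_eig (P := P) (g := g)
      intro i
      have h6 := hb i (Finset.mem_univ _)
      rw [h, zero_mul] at h6
      have h7 := ha2 i
      rw [h6, Nat.cast_zero, zero_div, mul_zero, Complex.exp_zero] at h7
      rw [hl i, h7, C_1, one_mul]
    · exact h
  obtain ⟨v', hcen, hlog, hmon⟩ := h4 P b hn (UPP.bezout b hb1)
  obtain ⟨v, e, hext⟩ := h1 (K := X.K) v' hn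
  refine ⟨v, (h2 hQ v' v e hext).2 hcen, ?_⟩
  have htrf := h5 hQ hn T hC v' v e hext hcen
  rw [hlog] at htrf
  have he0 : 0 < e := hext.1
  -- the order of a regular function
  have key : ∀ r : X.R, (r : X.K) ≠ 0 → (N : ℤ) ∣ d * e * v.ord (r : X.K) := by
    intro r hr
    have hr' : r ≠ 0 := fun h => hr (by rw [h]; rfl)
    have hφ : (φ r : MvPolynomial (Fin n) ℂ) ≠ 0 := by
      intro h
      apply hr'
      have : φ r = 0 := Subtype.ext h
      exact (map_eq_zero_iff φ φ.injective).1 this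
    obtain ⟨p, hp⟩ : ∃ p, p = linSubst P⁻¹ (φ r : MvPolynomial (Fin n) ℂ) := ⟨_, rfl⟩
    have hp1 : linSubst P p = (φ r : MvPolynomial (Fin n) ℂ) := by
      rw [hp, UPP.linSubst_comp, inv_mul_cancel, UPP.linSubst_one]
    have hp0 : p ≠ 0 := by
      intro h
      rw [h, map_zero] at hp1
      exact hφ hp1.symm
    obtain ⟨m, hm, hord⟩ := hmon p hp0
    have hinv : linSubst g (linSubst P p) = linSubst P p := by
      rw [hp1]
      exact (φ r).2 g hg
    have hm1 := UPP.inv_mono hl hinv hm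
    have hord2 : v'.ord (pol (linSubst P p)) = e * v.ord (r : X.K) := by
      rw [hp1, ← hQ.map r]
      exact hext.2 _
    rw [hord2] at hord
    have hexp : Complex.exp (2 * Real.pi * Complex.I * ((∑ i, (a i * m i : ℕ) : ℕ) / N)) = 1 := by
      rw [← hm1]
      rw [show (2 * Real.pi * Complex.I * (((∑ i, (a i * m i : ℕ) : ℕ) : ℂ) / N) : ℂ) =
        ∑ i, (m i : ℂ) * (2 * Real.pi * Complex.I * (a i / N)) by
          push_cast
          rw [Finset.sum_div, Finset.mul_sum]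
          refine Finset.sum_congr rfl fun i _ => ?_
          ring, Complex.exp_sum]
      refine Finset.prod_congr rfl fun i _ => ?_
      rw [Complex.exp_nat_mul, ← ha2 i]
    rw [Complex.exp_eq_one_iff] at hexp
    obtain ⟨k, hk⟩ := hexp
    have hpi : (2 * Real.pi * Complex.I : ℂ) ≠ 0 := Complex.two_pi_I_ne_zero
    have hNC : (N : ℂ) ≠ 0 := by exact_mod_cast hN0.ne'
    have hk1 : ((∑ i, (a i * m i : ℕ) : ℕ) : ℂ) = N * k := by
      have h6 : (((∑ i, (a i * m i : ℕ) : ℕ) : ℂ) / N) * (2 * Real.pi * Complex.I) =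
          k * (2 * Real.pi * Complex.I) := by
        rw [← hk]
        ring
      have h7 := mul_right_cancel₀ hpi h6
      rw [div_eq_iff hNC] at h7
      rw [h7]
      ring
    have hk2 : ((∑ i, (a i * m i : ℕ) : ℕ) : ℤ) = N * k := by exact_mod_cast hk1
    have hk3 : ((∑ i, (a i * m i : ℕ) : ℕ) : ℤ) = d * e * v.ord (r : X.K) := by
      rw [mul_assoc, hord, Finset.mul_sum]
      push_cast
      refine Finset.sum_congr rfl fun i _ => ?_
      rw [hb i (Finset.mem_univ _)]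
      push_cast
      ring
    exact ⟨k, by rw [← hk3, hk2]⟩
  have hdvd : (N : ℤ) ∣ d * e := by
    obtain ⟨t, ht0, ht1⟩ := v.unif
    obtain ⟨r, hr, s, hs, hs0, hrs⟩ := X.frac t
    have hr0 : r ≠ 0 := by rw [← hrs]; exact mul_ne_zero ht0 hs0
    have h6 := key ⟨r, hr⟩ hr0
    have h7 := key ⟨s, hs⟩ hs0
    have h8 : v.ord r = 1 + v.ord s := by
      rw [← hrs, v.ord_mul t s ht0 hs0, ht1]
    have h9 : (d : ℤ) * e = d * e * v.ord r - d * e * v.ord s := by
      rw [h8]
      ring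
    rw [h9]
    exact dvd_sub h6 h7
  have hle : N ≤ d * e := Nat.le_of_dvd (Nat.mul_pos hd0 he0) (by exact_mod_cast hdvd)
  have hNR : (0 : ℝ) < N := by exact_mod_cast hN0
  have hdR : (0 : ℝ) < d := by exact_mod_cast hd0
  have heR : (0 : ℝ) < e := by exact_mod_cast he0
  have hleR : (N : ℝ) ≤ d * e := by exact_mod_cast hle
  have hsum : (d : ℝ) * ((∑ i, (b i : ℤ) : ℤ) : ℝ) = N * Pool.Agent.Mld.age g := by
    rw [hage, Finset.mul_sum]
    push_cast
    rw [Finset.mul_sum]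
    refine Finset.sum_congr rfl fun i _ => ?_
    rw [← ha1 i, hb i (Finset.mem_univ _)]
    push_cast
    ring
  have hage0 : 0 ≤ Pool.Agent.Mld.age g := by
    rw [hage]
    exact Finset.sum_nonneg fun i _ => Int.fract_nonneg _
  have h10 : T.logDisc v * (d * e) = N * Pool.Agent.Mld.age g := by
    rw [← hsum, ← htrf]
    ring
  have hde : (0 : ℝ) < d * e := mul_pos hdR heR
  rw [← mul_le_mul_iff_left₀ hde, h10, mul_comm (Pool.Agent.Mld.age g)]
  exact mul_le_mul_of_nonneg_right hleR hage0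

end

end G4
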